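import Pool.Agent.Helper41.PD.Lab

/-!
# EV3: the current edges of the strands while a list of crossings is processed
-/

set_option autoImplicit false

namespace Pool.Agent.Helper30.EV3

open Pool.Agent.Helper41.PD Classical

variable {P : Type} {nxt : Equiv.Perm P} {op : P → P} {C : Finset P} {τ : P → ℕ} (H : Cut nxt op C τ)

/-- The label as an element of `C`. -/
noncomputable def lb (e : P) : {x // x ∈ C} := ⟨H.lab e, H.lab_mem e⟩

/-- The current edges after the crossing of `p`. -/
noncomputable def stp (cur : {x // x ∈ C} → P) (p : P) : {x // x ∈ C} → P :=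
  Function.update (Function.update cur (lb H (op p)) (op p)) (lb H p) p

/-- The current edges after a list of crossings. -/
noncomputable def stt (cur : {x // x ∈ C} → P) (X : List P) : {x // x ∈ C} → P := X.foldl (stp H) cur

/-- The order of the crossings along the strands. -/
def Ord (X : List P) : Prop :=
  X.Pairwise fun p p' => ∀ e e', (e = p ∨ e = op p) → (e' = p' ∨ e' = op p') → H.lab e = H.lab e' → H.dep e < H.dep e'

/-- The state of the strands. -/
def Inv (pre : List P) (cur : {x // x ∈ C} → P) : Prop :=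
  ∀ l : {x // x ∈ C}, ∃ n : ℕ, ((n = 0 ∧ cur l = l) ∨ (H.lab (cur l) = l ∧ H.dep (cur l) + 1 = n)) ∧
    ∀ e, H.lab e = l → ((e ∈ pre ∨ op e ∈ pre) ↔ H.dep e < n)

variable {H}

theorem lb_inj {e e' : P} : lb H e = lb H e' ↔ H.lab e = H.lab e' := by
  unfold lb
  rw [Subtype.mk.injEq]

theorem stp_left (cur : {x // x ∈ C} → P) (p : P) : stp H cur p (lb H p) = p := by
  unfold stp
  rw [Function.update_self]

theorem stp_right {cur : {x // x ∈ C} → P} {p : P} (hne : H.lab p ≠ H.lab (op p)) : stp H cur p (lb H (op p)) = op p := by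
  unfold stp
  rw [Function.update_of_ne, Function.update_self]
  intro h
  exact hne (lb_inj.1 h).symm

theorem stp_of_ne {cur : {x // x ∈ C} → P} {p : P} {l : {x // x ∈ C}} (h1 : l ≠ lb H p) (h2 : l ≠ lb H (op p)) :
    stp H cur p l = cur l := by
  unfold stp
  rw [Function.update_of_ne h1, Function.update_of_ne h2]

theorem stt_append (cur : {x // x ∈ C} → P) (X Y : List P) : stt H cur (X ++ Y) = stt H (stt H cur X) Y := by
  unfold stt
  rw [List.foldl_append]

theorem stt_cons (cur : {x // x ∈ C} → P) (p : P) (Y : List P) : stt H cur (p :: Y) = stt H (stp H cur p) Y := rfl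

theorem pr_of_dep {e : P} (h : 0 < H.dep e) : pr nxt op e ∉ C ∧ H.lab (pr nxt op e) = H.lab e ∧ H.dep (pr nxt op e) + 1 = H.dep e := by
  have h1 : pr nxt op e ∉ C := by
    intro hc
    have := H.dep_sc_mem hc
    rw [H.sc_pr] at this
    omega
  have h2 := H.dep_sc h1
  have h3 := H.lab_sc h1
  rw [H.sc_pr] at h2 h3
  exact ⟨h1, h3.symm, h2.symm⟩

theorem pr_of_zero {e : P} (h : H.dep e = 0) : pr nxt op e = H.lab e := by
  unfold Cut.lab
  rw [h, zero_add, Function.iterate_one]

theorem ex_dep {e : P} {m : ℕ} (hm : m ≤ H.dep e) : ∃ f, H.lab f = H.lab e ∧ H.dep f = m := by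
  obtain ⟨k, hk⟩ := Nat.exists_eq_add_of_le hm
  induction k generalizing e with
  | zero => exact ⟨e, rfl, by omega⟩
  | succ k ih =>
    obtain ⟨_, h2, h3⟩ := pr_of_dep (H := H) (e := e) (by omega)
    obtain ⟨f, f1, f2⟩ := ih (e := pr nxt op e) (by omega) (by omega)
    exact ⟨f, f1.trans h2, f2⟩

/-- The value of the counter at the next crossing. -/
theorem count_eq {pre suf : List P} {p : P} (hord : Ord H (pre ++ p :: suf)) (hall : ∀ e, e ∈ pre ++ p :: suf ∨ op e ∈ pre ++ p :: suf)
    (hne : H.lab p ≠ H.lab (op p)) {e : P} (he : e = p ∨ e = op p) {n : ℕ}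
    (hn : ∀ f, H.lab f = H.lab e → ((f ∈ pre ∨ op f ∈ pre) ↔ H.dep f < n)) : n = H.dep e := by
  unfold Ord at hord
  rw [List.pairwise_append] at hord
  obtain ⟨_, o2, o3⟩ := hord
  rw [List.pairwise_cons] at o2
  have hop := H.op_op
  have h1 : ¬ (e ∈ pre ∨ op e ∈ pre) := by
    have h2 : p ∉ pre := by
      intro hp
      exact absurd (o3 p hp p (by simp) e e he he rfl) (lt_irrefl _)
    have h3 : op p ∉ pre := by
      intro hp
      have he' : e = op p ∨ e = op (op p) := by
        rw [hop]
        exact he.symm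
      exact absurd (o3 (op p) hp p (by simp) e e he' he rfl) (lt_irrefl _)
    rcases he with rfl | rfl
    · exact fun h => h.elim h2 h3
    · rw [hop]
      exact fun h => h.elim h3 h2
  rw [hn e rfl, not_lt] at h1
  by_contra hcon
  have hlt : n < H.dep e := by omega
  obtain ⟨f, f1, f2⟩ := ex_dep (H := H) hlt.le
  have hproc : f ∈ pre ∨ op f ∈ pre := by
    have key : ∀ g, (f = g ∨ f = op g) → g ∈ pre ++ p :: suf → g ∈ pre := by
      intro g hg hmem
      rcases List.mem_append.1 hmem with h | h
      · exact h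
      · exfalso
        rcases List.mem_cons.1 h with h | h
        · subst h
          have : f = e ∨ H.lab f = H.lab e → False := by
            rintro (h | h)
            · rw [h] at f2
              omega
            · rcases hg with hg | hg <;> rcases he with he | he
              · rw [hg, ← he] at f2
                omega
              · rw [hg, he] at h
                exact hne h
              · rw [hg, he] at h
                exact hne h.symm
              · rw [hg, ← he] at f2
                omega
          exact this (Or.inr f1)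
        · have := o2.1 g h e f he hg f1.symm
          omega
    rcases hall f with h | h
    · exact Or.inl (key f (Or.inl rfl) h)
    · exact Or.inr (key (op f) (Or.inr (hop f).symm) h)
  rw [hn f f1, f2] at hproc
  exact absurd hproc (lt_irrefl _)

/-- One crossing. -/
theorem Inv.step {pre suf : List P} {p : P} {cur : {x // x ∈ C} → P} (hord : Ord H (pre ++ p :: suf))
    (hall : ∀ e, e ∈ pre ++ p :: suf ∨ op e ∈ pre ++ p :: suf)
    (hne : H.lab p ≠ H.lab (op p)) (h : Inv H pre cur) :
    cur (lb H p) = pr nxt op p ∧ cur (lb H (op p)) = pr nxt op (op p) ∧ Inv H (pre ++ [p]) (stp H cur p) := by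
  have hop := H.op_op
  have key : ∀ e, (e = p ∨ e = op p) → cur (lb H e) = pr nxt op e ∧
      ∀ f, H.lab f = H.lab e → ((f ∈ pre ∨ op f ∈ pre) ↔ H.dep f < H.dep e) := by
    intro e he
    obtain ⟨n, h1, h2⟩ := h (lb H e)
    have hn := count_eq hord hall hne he h2
    subst hn
    refine ⟨?_, h2⟩
    rcases h1 with ⟨h3, h4⟩ | ⟨h3, h4⟩
    · rw [h4, pr_of_zero h3]
      rfl
    · obtain ⟨_, g2, g3⟩ := pr_of_dep (H := H) (e := e) (by omega)
      apply H.eq_of_dep
      · rw [h3, g2]
        rfl
      · omega
  have new : ∀ e, (e = p ∨ e = op p) → ∀ f, H.lab f = H.lab e →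
      ((f ∈ pre ++ [p] ∨ op f ∈ pre ++ [p]) ↔ H.dep f < H.dep e + 1) := by
    intro e he f hf
    have h1 := (key e he).2 f hf
    simp only [List.mem_append, List.mem_singleton]
    have h2 : (f = p ∨ op f = p) ↔ f = e := by
      constructor
      · rintro (h3 | h3)
        · rcases he with he | he
          · rw [h3, he]
          · exfalso
            rw [h3, he] at hf
            exact hne hf
        · have h4 : f = op p := by rw [← h3, hop]
          rcases he with he | he
          · exfalso
            rw [h4, he] at hf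
            exact hne hf.symm
          · rw [h4, he]
      · intro h3
        rcases he with he | he
        · exact Or.inl (h3.trans he)
        · right
          rw [h3, he, hop]
    have h5 : H.dep f < H.dep e + 1 ↔ (H.dep f < H.dep e ∨ f = e) := by
      constructor
      · intro h6
        rcases Nat.lt_or_eq_of_le (Nat.lt_succ_iff.1 h6) with h7 | h7
        · exact Or.inl h7
        · exact Or.inr (H.eq_of_dep hf h7)
      · rintro (h6 | h6)
        · omega
        · rw [h6]
          omega
    rw [h5, ← h1, ← h2]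
    tauto
  refine ⟨(key p (Or.inl rfl)).1, (key (op p) (Or.inr rfl)).1, ?_⟩
  intro l
  by_cases h1 : l = lb H p
  · subst h1
    refine ⟨H.dep p + 1, Or.inr ?_, fun e he => new p (Or.inl rfl) e he⟩
    rw [stp_left]
    exact ⟨rfl, rfl⟩
  by_cases h2 : l = lb H (op p)
  · subst h2
    refine ⟨H.dep (op p) + 1, Or.inr ?_, fun e he => new (op p) (Or.inr rfl) e he⟩
    rw [stp_right hne]
    exact ⟨rfl, rfl⟩
  obtain ⟨n, h3, h4⟩ := h l
  refine ⟨n, ?_, fun e he => ?_⟩
  · rw [stp_of_ne h1 h2]
    exact h3
  · rw [← h4 e he]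
    simp only [List.mem_append, List.mem_singleton]
    have h5 : e ≠ p := by
      intro h6
      apply h1
      apply Subtype.ext
      rw [← he, h6]
      rfl
    have h6 : op e ≠ p := by
      intro h6
      apply h2
      apply Subtype.ext
      rw [← he]
      have : e = op p := by rw [← h6, hop]
      rw [this]
      rfl
    tauto

theorem Inv.start : Inv H [] (fun l => l.1) := by
  intro l
  refine ⟨0, Or.inl ⟨rfl, rfl⟩, fun e _ => ?_⟩
  simp

/-- The state after a prefix. -/
theorem inv_prefix {pre suf : List P} (hord : Ord H (pre ++ suf)) (hall : ∀ e, e ∈ pre ++ suf ∨ op e ∈ pre ++ suf)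
    (hne : ∀ p ∈ pre ++ suf, H.lab p ≠ H.lab (op p)) : Inv H pre (stt H (fun l => l.1) pre) := by
  induction pre using List.reverseRecOn generalizing suf with
  | nil => exact Inv.start
  | append_singleton pre p ih =>
    have e1 : pre ++ [p] ++ suf = pre ++ (p :: suf) := by simp
    rw [e1] at hord hall hne
    have h1 := ih hord hall hne
    rw [stt_append]
    exact (h1.step hord hall (hne p (by simp))).2.2

/-- The current edges at a crossing. -/
theorem cur_at {pre suf : List P} {p : P} (hord : Ord H (pre ++ p :: suf)) (hall : ∀ e, e ∈ pre ++ p :: suf ∨ op e ∈ pre ++ p :: suf)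
    (hne : ∀ p' ∈ pre ++ p :: suf, H.lab p' ≠ H.lab (op p')) :
    stt H (fun l => l.1) pre (lb H p) = pr nxt op p ∧ stt H (fun l => l.1) pre (lb H (op p)) = pr nxt op (op p) := by
  have h1 := (inv_prefix hord hall hne).step hord hall (hne p (by simp))
  exact ⟨h1.1, h1.2.1⟩

/-- The final edges. -/
theorem cur_end {X : List P} (hord : Ord H X) (hall : ∀ e, e ∈ X ∨ op e ∈ X)
    (hne : ∀ p ∈ X, H.lab p ≠ H.lab (op p)) (l : {x // x ∈ C}) :
    stt H (fun l => l.1) X l ∈ C ∧ H.lab (stt H (fun l => l.1) X l) = l := by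
  have h0 := inv_prefix (H := H) (pre := X) (suf := []) (by simpa using hord) (by simpa using hall) (by simpa using hne)
  obtain ⟨n, h1, h2⟩ := h0 l
  have h3 : ∀ e, H.lab e = l → H.dep e < n := fun e he => (h2 e he).1 (hall e)
  have h4 := h3 _ (H.lab_sc_mem l.2)
  rcases h1 with ⟨h1, _⟩ | ⟨h1, h5⟩
  · omega
  · refine ⟨?_, h1⟩
    by_contra hc
    have h6 := h3 _ ((H.lab_sc hc).trans h1)
    rw [H.dep_sc hc] at h6
    omega

/-- The permutation of the arcs. -/
theorem lab_bij : Function.Bijective fun c : {x // x ∈ C} => lb H c.1 := by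
  apply Finite.injective_iff_bijective.1
  intro c c' h
  have h1 : H.lab c = H.lab c' := lb_inj.1 h
  apply Subtype.ext
  apply H.eq_of_dep h1
  exact le_antisymm (H.last c'.2 h1) (H.last c.2 h1.symm)

variable (H) in
/-- The arc `i` ends on the edge of `C` on which the arc `arcPerm i` starts. -/
noncomputable def arcPerm : Equiv.Perm {x // x ∈ C} := (Equiv.ofBijective _ (lab_bij (H := H))).symm

theorem arcPerm_eq {c l : {x // x ∈ C}} (h : H.lab c = l) : arcPerm H l = c := by
  unfold arcPerm
  rw [Equiv.symm_apply_eq, Equiv.ofBijective_apply]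
  apply Subtype.ext
  exact h.symm

theorem cur_end' {X : List P} (hord : Ord H X) (hall : ∀ e, e ∈ X ∨ op e ∈ X)
    (hne : ∀ p ∈ X, H.lab p ≠ H.lab (op p)) (l : {x // x ∈ C}) :
    stt H (fun l => l.1) X l = arcPerm H l := by
  obtain ⟨h1, h2⟩ := cur_end hord hall hne l
  rw [arcPerm_eq (c := ⟨_, h1⟩) h2]

end Pool.Agent.Helper30.EV3
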