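import Pool.Agent.Helper30.EV3.Inst
import Pool.Agent.Helper2.PD.Faces

/-!
# EV3: lower and upper bounds for the face values of a cut shadow with boxes
-/

set_option autoImplicit false

namespace Pool.Agent.Helper30.EV3

open Pool.Agent.Helper78.EV2 Pool.Agent.Helper78.EV Pool.Agent.Helper41.PD Pool.Agent.Helper85.Exp Pool.Agent.Helper29.PD

variable {P : Type} {G : Sh P} {C : Finset P} {τ : P → ℕ} {H : Cut G.nxt G.op C τ}

/-- Boxes, each of them one chain, with the special crossings alone in their boxes. -/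
structure Bx3 (H : Cut G.nxt G.op C τ) (Sp : P → Prop) (Bs : List (List P × List (P × ℕ))) : Prop where
  bxs : Bxs H Bs
  use : ∀ b ∈ Bs, ∀ k, k + 1 < b.1.length → ∃ q ∈ b.2, q.2 = k
  sp : ∀ b ∈ Bs, ∀ q ∈ b.2, Sp q.1 → b.2 = [q]

/-- The chain of the box `t`. -/
def chn {Bs : List (List P × List (P × ℕ))} (hB : Bxs H Bs) (t : ℕ) : List {x // x ∈ C} :=
  if h : t < Bs.length then Bs[t].1.attachWith (· ∈ C) (hB.mem _ (List.getElem_mem h)) else []

/-- The crossings of the box `t`. -/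
def crt (Bs : List (List P × List (P × ℕ))) (t : ℕ) : List (P × ℕ) := if h : t < Bs.length then Bs[t].2 else []

/-- The current edges of the slice `t`. -/
noncomputable def sl (H : Cut G.nxt G.op C τ) (Bs : List (List P × List (P × ℕ))) (t : ℕ) : {x // x ∈ C} → P :=
  stt H (fun l => l.1) (crs (Bs.take t))

theorem crs_append (A B : List (List P × List (P × ℕ))) : crs (A ++ B) = crs A ++ crs B := by
  unfold crs
  rw [List.flatMap_append]

theorem take_succ' (Bs : List (List P × List (P × ℕ))) {t : ℕ} (ht : t < Bs.length) :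
    crs (Bs.take (t + 1)) = crs (Bs.take t) ++ (crt Bs t).map Prod.fst := by
  rw [List.take_succ_eq_append_getElem ht, crs_append]
  unfold crt
  rw [dif_pos ht]
  simp [crs]

theorem crs_split (Bs : List (List P × List (P × ℕ))) {t : ℕ} (ht : t < Bs.length) :
    crs Bs = crs (Bs.take t) ++ (crt Bs t).map Prod.fst ++ crs (Bs.drop (t + 1)) := by
  rw [← take_succ' Bs ht, ← crs_append, List.take_append_drop]

theorem sl_succ {Bs : List (List P × List (P × ℕ))} {t : ℕ} (ht : t < Bs.length) :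
    sl H Bs (t + 1) = stt H (sl H Bs t) ((crt Bs t).map Prod.fst) := by
  unfold sl
  rw [take_succ' Bs ht, stt_append]

theorem ord_of {Bs : List (List P × List (P × ℕ))} (hB : Bxs H Bs) : Ord H (crs Bs) := hB.ord

theorem hall_of {Bs : List (List P × List (P × ℕ))} (hB : Bxs H Bs) (ho : ∀ p, G.op p ≠ p) (e : P) : e ∈ crs Bs ∨ G.op e ∈ crs Bs := by
  rw [hB.all, hB.all]
  cases h : G.lf e with
  | true => exact Or.inl rfl
  | false =>
    right
    rw [G.lf_op e (ho e), h]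
    rfl

theorem ltr_of {Bs : List (List P × List (P × ℕ))} (hB : Bxs H Bs) {t : ℕ} (ht : t < Bs.length) {q : P × ℕ}
    (hq : q ∈ crt Bs t) : Ltr H (chn hB t) q := by
  unfold crt at hq
  rw [dif_pos ht] at hq
  obtain ⟨h1, h2⟩ := hB.let_ _ (List.getElem_mem ht) q hq
  obtain ⟨g1, e1⟩ := List.getElem?_eq_some_iff.1 h1
  obtain ⟨g2, e2⟩ := List.getElem?_eq_some_iff.1 h2
  have e3 : chn hB t = Bs[t].1.attachWith (· ∈ C) (hB.mem _ (List.getElem_mem ht)) := by
    unfold chn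
    rw [dif_pos ht]
  have e4 : (chn hB t).length = Bs[t].1.length := by rw [e3, List.length_attachWith]
  refine ⟨by rw [e4]; exact g2, ?_, ?_⟩
  · apply Subtype.ext
    simp only [e3, List.getElem_attachWith]
    exact e1
  · apply Subtype.ext
    simp only [e3, List.getElem_attachWith]
    exact e2

theorem nd_of {Bs : List (List P × List (P × ℕ))} (hB : Bxs H Bs) (t : ℕ) : (chn hB t).Nodup := by
  unfold chn
  split_ifs with ht
  · have := hB.nd _ (List.getElem_mem ht)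
    rw [List.attachWith]
    exact this.pmap fun _ _ _ _ h => congrArg Subtype.val h
  · exact List.nodup_nil

theorem mem_crs {Bs : List (List P × List (P × ℕ))} {p : P} (h : p ∈ crs Bs) : ∃ t < Bs.length, ∃ q ∈ crt Bs t, q.1 = p := by
  unfold crs at h
  obtain ⟨b, hb, h1⟩ := List.mem_flatMap.1 h
  obtain ⟨q, hq, rfl⟩ := List.mem_map.1 h1
  obtain ⟨t, ht, rfl⟩ := List.getElem_of_mem hb
  refine ⟨t, ht, q, ?_, rfl⟩
  unfold crt
  rwa [dif_pos ht]

theorem hne_of {Bs : List (List P × List (P × ℕ))} (hB : Bxs H Bs) {p : P} (h : p ∈ crs Bs) : H.lab p ≠ H.lab (G.op p) := by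
  obtain ⟨t, ht, q, hq, rfl⟩ := mem_crs h
  exact (ltr_of hB ht hq).ne (nd_of hB t)

theorem lf_of {Bs : List (List P × List (P × ℕ))} (hB : Bxs H Bs) {t : ℕ} (ht : t < Bs.length) {q : P × ℕ}
    (hq : q ∈ crt Bs t) : G.lf q.1 = true := by
  rw [← hB.all, crs_split Bs ht]
  exact List.mem_append_left _ (List.mem_append_right _ (List.mem_map_of_mem hq))

/-- The facts about one box. -/
structure Bf (H : Cut G.nxt G.op C τ) (vL vR : P → ℂ) (s : ℂ) (ch : List {x // x ∈ C}) (cs : List (P × ℕ))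
    (c0 : {x // x ∈ C} → P) : Prop where
  nd : ch.Nodup
  ltr : ∀ q ∈ cs, Ltr H ch q
  crn : ∀ q ∈ cs, Crn G.nxt G.op vL vR q.1
  lg : Lg H c0 (cs.map Prod.fst)
  adj : Adj ch vL vR c0

theorem box_facts {Sp : P → Prop} {Bs : List (List P × List (P × ℕ))} (hB : Bx3 H Sp Bs) (ho : ∀ p, G.op p ≠ p) {vL vR : P → ℂ}
    (hc : ∀ p, G.lf p = true → Crn G.nxt G.op vL vR p) (s : ℂ) {t : ℕ} (ht : t < Bs.length) :
    Bf H vL vR s (chn hB.bxs t) (crt Bs t) (sl H Bs t) := by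
  have h1 := nd_of hB.bxs t
  have h2 : ∀ q ∈ crt Bs t, Ltr H (chn hB.bxs t) q := fun q hq => ltr_of hB.bxs ht hq
  have h3 : ∀ q ∈ crt Bs t, Crn G.nxt G.op vL vR q.1 := fun q hq => hc _ (lf_of hB.bxs ht hq)
  have h4 : Lg H (sl H Bs t) ((crt Bs t).map Prod.fst) := by
    have e := crs_split Bs ht
    apply lg_of (suf := crs (Bs.drop (t + 1)))
    · rw [← e]
      exact ord_of hB.bxs
    · rw [← e]
      exact hall_of hB.bxs ho
    · rw [← e]
      exact fun p' hp' => hne_of hB.bxs hp'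
  refine ⟨h1, h2, h3, h4, ?_⟩
  intro j hj
  refine adj_start h1 (crt Bs t) h2 h3 h4 hj ?_
  have e4 : (chn hB.bxs t).length = Bs[t].1.length := by
    unfold chn
    rw [dif_pos ht, List.length_attachWith]
  have h5 := hB.use _ (List.getElem_mem ht) j (by rw [← e4]; exact hj)
  unfold crt
  rwa [dif_pos ht]

/-- The gap values of the slice. -/
abbrev gv (vL vR : P → ℂ) (ch : List {x // x ∈ C}) (c : {x // x ∈ C} → P) : ℕ → ℂ := gp (fun l => vL (c l)) (fun l => vR (c l)) ch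

/-- The error of a box. -/
theorem box_err {Sp : P → Prop} {Bs : List (List P × List (P × ℕ))} (hB : Bx3 H Sp Bs) (ho : ∀ p, G.op p ≠ p) {vL vR : P → ℂ}
    (hc : ∀ p, G.lf p = true → Crn G.nxt G.op vL vR p) (s : ℂ)
    (hr : ∀ p, G.lf p = true → ¬ Sp p → rowv G.nxt G.op s vL vR p = 0) {t : ℕ} (ht : t < Bs.length) :
    (∀ j ≤ (chn hB.bxs t).length, gv vL vR (chn hB.bxs t) (sl H Bs (t + 1)) j =
      Ev s ((crt Bs t).map Prod.snd) (gv vL vR (chn hB.bxs t) (sl H Bs t)) j) ∨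
    ∃ q, crt Bs t = [q] ∧ Sp q.1 ∧ ∀ j ≤ (chn hB.bxs t).length, gv vL vR (chn hB.bxs t) (sl H Bs (t + 1)) j -
      Ev s ((crt Bs t).map Prod.snd) (gv vL vR (chn hB.bxs t) (sl H Bs t)) j =
        if j = q.2 + 1 then rowv G.nxt G.op s vL vR q.1 else 0 := by
  have hb := box_facts hB ho hc s ht
  rw [sl_succ ht]
  by_cases h : ∃ q ∈ crt Bs t, Sp q.1
  · right
    obtain ⟨q, hq, hs⟩ := h
    have h1 : crt Bs t = [q] := by
      unfold crt at hq ⊢
      rw [dif_pos ht] at hq ⊢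
      exact hB.sp _ (List.getElem_mem ht) q hq hs
    refine ⟨q, h1, hs, fun j hj => ?_⟩
    have h2 := hb.lg
    rw [h1] at h2 ⊢
    exact gp_lt hb.nd (hb.ltr q hq) (hb.crn q hq) h2.1 h2.2.1 hb.adj s hj
  · left
    push Not at h
    exact (gp_run hb.nd s (crt Bs t) hb.ltr hb.crn hb.lg hb.adj).2 fun q hq => hr _ (lf_of hB.bxs ht hq) (h q hq)

/-- The box as a box of the network. -/
theorem bx_of {Sp : P → Prop} {Bs : List (List P × List (P × ℕ))} (hB : Bx3 H Sp Bs) (ho : ∀ p, G.op p ≠ p) {vL vR : P → ℂ}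
    (hc : ∀ p, G.lf p = true → Crn G.nxt G.op vL vR p) (s : ℂ) {F : ℝ} (hF : 0 ≤ F)
    (hr : ∀ p, G.lf p = true → ¬ Sp p → rowv G.nxt G.op s vL vR p = 0)
    (hr' : ∀ p, G.lf p = true → Sp p → ‖rowv G.nxt G.op s vL vR p‖ ≤ F) {t : ℕ} (ht : t < Bs.length) :
    Bx s F (chn hB.bxs t) ((crt Bs t).map Prod.snd) (fun l => vL (sl H Bs t l)) (fun l => vR (sl H Bs t l))
      (fun l => vL (sl H Bs (t + 1) l)) (fun l => vR (sl H Bs (t + 1) l)) := by
  have hb := box_facts hB ho hc s ht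
  refine ⟨hb.nd, ?_, ?_, fun j hj => hb.adj j hj, ?_, ?_⟩
  · intro k hk
    obtain ⟨q, hq, rfl⟩ := List.mem_map.1 hk
    exact (hb.ltr q hq).lt
  · intro l hl
    rw [sl_succ ht, stt_out (crt Bs t) hb.ltr hl]
    exact ⟨rfl, rfl⟩
  · rw [sl_succ ht]
    exact fun j hj => (gp_run hb.nd s (crt Bs t) hb.ltr hb.crn hb.lg hb.adj).1 j hj
  · intro j hj
    rcases box_err hB ho hc s hr ht with h | ⟨q, h1, h2, h3⟩
    · have := h j hj
      unfold gv at this
      rw [this, sub_self, norm_zero]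
      exact hF
    · have := h3 j hj
      unfold gv at this
      rw [this]
      split_ifs
      · exact hr' _ (lf_of hB.bxs ht (by rw [h1]; simp)) h2
      · rw [norm_zero]
        exact hF

/-- The last slice. -/
theorem sl_end {Bs : List (List P × List (P × ℕ))} (hB : Bxs H Bs) (ho : ∀ p, G.op p ≠ p) (l : {x // x ∈ C}) :
    sl H Bs Bs.length l = arcPerm H l := by
  unfold sl
  rw [List.take_length]
  exact cur_end' (ord_of hB) (hall_of hB ho) (fun p hp => hne_of hB hp) l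

theorem sl_zero (Bs : List (List P × List (P × ℕ))) (l : {x // x ∈ C}) : sl H Bs 0 l = l := by
  unfold sl
  rw [List.take_zero]
  rfl

/-- Connectivity of the labels. -/
theorem conn_labels (hG : Pool.Agent.Helper2.PD.Conn G) (ho : ∀ p, G.op p ≠ p) (S : {x // x ∈ C} → Prop) {i0 : {x // x ∈ C}} (h0 : S i0)
    (h1 : ∀ i, S i ↔ S (arcPerm H i)) (h2 : ∀ p, G.lf p = true → (S (lb H p) ↔ S (lb H (G.op p)))) : ∀ i, S i := by
  have hsc : ∀ i : {x // x ∈ C}, lb H (sc G.nxt G.op i.1) = i := fun i => Subtype.ext (H.lab_sc_mem i.2)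
  have hop : ∀ e, S (lb H (G.op e)) ↔ S (lb H e) := by
    intro e
    cases h : G.lf e with
    | true => exact (h2 e h).symm
    | false =>
      have h3 : G.lf (G.op e) = true := by
        rw [G.lf_op e (ho e), h]
        rfl
      have h4 := h2 _ h3
      rwa [G.op_op] at h4
  have hall := hG (fun e => S (lb H e)) ⟨sc G.nxt G.op i0.1, by rw [hsc]; exact h0⟩ ?_ hop
  · intro i
    have := hall (sc G.nxt G.op i.1)
    rwa [hsc] at this
  · intro e
    rw [← hop (G.nxt e)]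
    show S (lb H (sc G.nxt G.op e)) ↔ S (lb H e)
    by_cases he : e ∈ C
    · have e1 := hsc ⟨e, he⟩
      simp only at e1
      rw [e1, h1 (lb H e), arcPerm_eq (c := ⟨e, he⟩) rfl]
    · have e1 : lb H (sc G.nxt G.op e) = lb H e := Subtype.ext (H.lab_sc he)
      rw [e1]

/-- The network of a cut shadow. -/
theorem nw_of {Sp : P → Prop} {Bs : List (List P × List (P × ℕ))} (hB : Bx3 H Sp Bs) (ho : ∀ p, G.op p ≠ p) {vL vR : P → ℂ}
    (hc : ∀ p, G.lf p = true → Crn G.nxt G.op vL vR p) (s : ℂ) {F : ℝ} (hF : 0 ≤ F)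
    (hr : ∀ p, G.lf p = true → ¬ Sp p → rowv G.nxt G.op s vL vR p = 0)
    (hr' : ∀ p, G.lf p = true → Sp p → ‖rowv G.nxt G.op s vL vR p‖ ≤ F) {N : ℕ} (hN : C.card ≤ N) (hN' : Bs.length ≤ N) :
    Nw N s F Bs.length (fun t => (chn hB.bxs t, (crt Bs t).map Prod.snd)) (fun t l => vL (sl H Bs t l))
      (fun t l => vR (sl H Bs t l)) (arcPerm H) where
  hN := by simpa using hN
  hT := hN'
  box t ht := bx_of hB ho hc s hF hr hr' ht
  cl i := by
    rw [sl_end hB.bxs ho, sl_zero]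
    exact ⟨rfl, rfl⟩

/-- Bounds inside the boxes from bounds for the slices. -/
theorem all_edges {N : ℕ} {Phi th de K : ℝ} (hK : 0 < K)
    (HH : ∀ x y : ℝ, 0 < x → x ≤ Phi → |y| ≤ th → ∀ n ≤ N, ∀ w : List ℕ, (∀ k ∈ w, k + 2 ≤ n) →
      ∀ (c : ℕ → ℂ) (M : ℝ), (∀ j ≤ n, ‖c j‖ ≤ M) → ∃ (p : ℕ → ℂ) (e : ℝ), 0 ≤ e ∧
        (∀ j ≤ n, ‖c j - p j‖ ≤ K * e) ∧ (∀ j ≤ n, ‖Ev (ss x y) w c j - p j‖ ≤ K * e) ∧
        (∀ k ∈ w, p k + p (k + 2) = 2 * Complex.cosh ((x : ℂ) + y * Complex.I) * p (k + 1)) ∧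
        (∀ j ≤ n, ‖p j‖ ≤ K * M) ∧ e ≤ K * M ∧
        de * x * e ^ 2 - K * x * |y| * e * M ≤ ∑ j ∈ Finset.range n,
          (En x y (c j) (c (j + 1)) - En x y (Ev (ss x y) w c j) (Ev (ss x y) w c (j + 1))))
    {x y : ℝ} (hx : 0 < x) (hxP : x ≤ Phi) (hy : |y| ≤ th)
    {Sp : P → Prop} {Bs : List (List P × List (P × ℕ))} (hB : Bx3 H Sp Bs) (ho : ∀ p, G.op p ≠ p) (hN : C.card ≤ N) {vL vR : P → ℂ}
    (hc : ∀ p, G.lf p = true → Crn G.nxt G.op vL vR p)
    (hr : ∀ p, G.lf p = true → ¬ Sp p → rowv G.nxt G.op (ss x y) vL vR p = 0) {M : ℝ} (hM : 0 ≤ M)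
    (hsl : ∀ t ≤ Bs.length, ∀ l, ‖vL (sl H Bs t l)‖ ≤ M ∧ ‖vR (sl H Bs t l)‖ ≤ M) (e : P) :
    ‖vL e‖ ≤ (1 + K + K ^ 2) * M ∧ ‖vR e‖ ≤ (1 + K + K ^ 2) * M := by
  have hMQ : M ≤ (1 + K + K ^ 2) * M := by
    have : 0 ≤ (K + K ^ 2) * M := by positivity
    linarith
  have main : ∀ p ∈ crs Bs, ‖vL p‖ ≤ (1 + K + K ^ 2) * M ∧ ‖vR p‖ ≤ (1 + K + K ^ 2) * M ∧ ‖vR (G.op p)‖ ≤ (1 + K + K ^ 2) * M := by
    intro p hp
    obtain ⟨t, ht, q, hq, rfl⟩ := mem_crs hp
    obtain ⟨cs1, cs2, hcs⟩ := List.append_of_mem hq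
    have hb := box_facts hB ho hc (ss x y) ht
    have hlen : (chn hB.bxs t).length ≤ N := (List.Nodup.length_le_card hb.nd).trans (by simpa using hN)
    have hlq := hb.ltr q hq
    have hlt := hlq.lt
    -- the state before the crossing
    have hlg := hb.lg
    rw [hcs, List.map_append, List.map_cons] at hlg
    obtain ⟨l1, l2, l3, _⟩ := hlg.append
    have hm1 : ∀ q' ∈ cs1, q' ∈ crt Bs t := fun q' hq' => by rw [hcs]; simp [hq']
    have hrun := gp_run hb.nd (ss x y) cs1 (fun q' hq' => hb.ltr q' (hm1 q' hq')) (fun q' hq' => hb.crn q' (hm1 q' hq')) l1 hb.adj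
    have hst := gp_step hb.nd hlq (hb.crn q hq) l2 l3 hrun.1
    obtain ⟨g1, g2, g3, g4, g5⟩ := hst
    by_cases hs : ∃ q' ∈ crt Bs t, Sp q'.1
    · obtain ⟨q', hq', hs'⟩ := hs
      have h1 : crt Bs t = [q'] := by
        unfold crt at hq' ⊢
        rw [dif_pos ht] at hq' ⊢
        exact hB.sp _ (List.getElem_mem ht) q' hq' hs'
      have h2 : cs1 = [] ∧ q = q' := by
        rw [h1] at hcs
        cases cs1 with
        | nil =>
          simp at hcs
          exact ⟨rfl, hcs.1.symm⟩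
        | cons a l => simp at hcs
      obtain ⟨h2, h3⟩ := h2
      subst h2
      subst h3
      have h4 : sl H Bs (t + 1) = stp H (sl H Bs t) q.1 := by
        rw [sl_succ ht, h1]
        rfl
      have b1 := gp_le (ch := chn hB.bxs t) hM (hsl t ht.le) q.2
      have b2 := gp_le (ch := chn hB.bxs t) hM (hsl (t + 1) ht) (q.2 + 1)
      have b3 := gp_le (ch := chn hB.bxs t) hM (hsl t ht.le) (q.2 + 2)
      have g2' : gp (fun l => vL (stp H (sl H Bs t) q.1 l)) (fun l => vR (stp H (sl H Bs t) q.1 l)) (chn hB.bxs t) (q.2 + 1) = vR q.1 := g2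
      rw [h4, g2'] at b2
      have g3' : gp (fun l => vL (sl H Bs t l)) (fun l => vR (sl H Bs t l)) (chn hB.bxs t) q.2 = vL q.1 := g3
      have g5' : gp (fun l => vL (sl H Bs t l)) (fun l => vR (sl H Bs t l)) (chn hB.bxs t) (q.2 + 2) = vR (G.op q.1) := g5
      rw [g3'] at b1
      rw [g5'] at b3
      exact ⟨b1.trans hMQ, b2.trans hMQ, b3.trans hMQ⟩
    · push Not at hs
      have hex : ∀ cs : List (P × ℕ), (∀ q' ∈ cs, q' ∈ crt Bs t) → Lg H (sl H Bs t) (cs.map Prod.fst) → ∀ j ≤ (chn hB.bxs t).length,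
          ‖gp (fun l => vL (stt H (sl H Bs t) (cs.map Prod.fst) l)) (fun l => vR (stt H (sl H Bs t) (cs.map Prod.fst) l)) (chn hB.bxs t) j‖ ≤
            (1 + K + K ^ 2) * M := by
        intro cs hcs' hlg' j hj
        rw [(gp_run hb.nd (ss x y) cs (fun q' hq' => hb.ltr q' (hcs' q' hq')) (fun q' hq' => hb.crn q' (hcs' q' hq')) hlg' hb.adj).2
          (fun q' hq' => hr _ (lf_of hB.bxs ht (hcs' q' hq')) (hs q' (hcs' q' hq'))) j hj]
        obtain ⟨p, e, he, a1, a2, a3, a4, a5, a6⟩ := HH x y hx hxP hy (chn hB.bxs t).length hlen (cs.map Prod.snd)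
          (fun k hk => by
            obtain ⟨q', hq', rfl⟩ := List.mem_map.1 hk
            have := (hb.ltr q' (hcs' q' hq')).lt
            omega) (gp (fun l => vL (sl H Bs t l)) (fun l => vR (sl H Bs t l)) (chn hB.bxs t)) M
          (fun j _ => gp_le hM (hsl t ht.le) j)
        have b1 := a2 j hj
        have b2 := a4 j hj
        have e1 : Ev (ss x y) (cs.map Prod.snd) (gp (fun l => vL (sl H Bs t l)) (fun l => vR (sl H Bs t l)) (chn hB.bxs t)) j =
          (Ev (ss x y) (cs.map Prod.snd) (gp (fun l => vL (sl H Bs t l)) (fun l => vR (sl H Bs t l)) (chn hB.bxs t)) j - p j) + p j := by ring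
        rw [e1]
        refine (norm_add_le _ _).trans ?_
        have b4 : K * e ≤ K * (K * M) := mul_le_mul_of_nonneg_left a5 hK.le
        nlinarith
      have c1 := hex cs1 hm1 l1 q.2 (by omega)
      have c3 := hex cs1 hm1 l1 (q.2 + 2) (by omega)
      have c2 := hex (cs1 ++ [q]) (fun q' hq' => by
        rcases List.mem_append.1 hq' with h | h
        · exact hm1 q' h
        · rw [List.mem_singleton.1 h]
          exact hq) (by
          have := hb.lg
          rw [hcs, show cs1 ++ q :: cs2 = (cs1 ++ [q]) ++ cs2 by simp, List.map_append] at this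
          exact this.append.1) (q.2 + 1) (by omega)
      rw [g3] at c1
      rw [g5] at c3
      rw [List.map_append, stt_append] at c2
      have g2' : gp (fun l => vL (stt H (stt H (sl H Bs t) (cs1.map Prod.fst)) (List.map Prod.fst [q]) l))
        (fun l => vR (stt H (stt H (sl H Bs t) (cs1.map Prod.fst)) (List.map Prod.fst [q]) l)) (chn hB.bxs t) (q.2 + 1) = vR q.1 := g2
      rw [g2'] at c2
      exact ⟨c1, c2, c3⟩
  rcases hall_of hB.bxs ho e with h | h
  · exact ⟨(main e h).1, (main e h).2.1⟩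
  · have h1 := main _ h
    rw [G.op_op] at h1
    refine ⟨?_, h1.2.2⟩
    have h2 := (hc _ ((hB.bxs.all _).1 h)).N
    rw [G.op_op] at h2
    rw [← h2]
    exact h1.2.1

/-- **LOWER**: bounds for all face values from the special rows. -/
theorem lower (N : ℕ) (Phi : ℝ) (hPhi : 0 < Phi) : ∃ th > 0, ∃ K > 0, ∀ x y : ℝ, 0 < x → x ≤ Phi → |y| ≤ th →
    ∀ (P : Type) (G : Sh P) (C : Finset P) (τ : P → ℕ) (H : Cut G.nxt G.op C τ) (Sp : P → Prop)
      (Bs : List (List P × List (P × ℕ))), (∀ p, G.op p ≠ p) → Pool.Agent.Helper2.PD.Conn G → C.card ≤ N → Bs.length ≤ N →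
      Bx3 H Sp Bs → ∀ (vL vR : P → ℂ) (F : ℝ), ∀ b ∈ C, (∀ p, G.lf p = true → Crn G.nxt G.op vL vR p) →
      ‖vL b‖ ≤ F → ‖vR b‖ ≤ F →
      (∀ p, G.lf p = true → ¬ Sp p → rowv G.nxt G.op (ss x y) vL vR p = 0) →
      (∀ p, G.lf p = true → Sp p → ‖rowv G.nxt G.op (ss x y) vL vR p‖ ≤ F) →
      ∀ e, ‖vL e‖ ≤ K / x * F ∧ ‖vR e‖ ≤ K / x * F := by
  obtain ⟨th1, hth1, K1, hK1, H1⟩ := net N Phi hPhi
  obtain ⟨th2, hth2, de, hde, K2, hK2, H2⟩ := run_lemma N Phi hPhi
  refine ⟨min th1 th2, lt_min hth1 hth2, (1 + K2 + K2 ^ 2) * K1, by positivity, ?_⟩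
  intro x y hx hxP hy P G C τ H Sp Bs ho hG hC hBs hB vL vR F b hb hc hb1 hb2 hr hr' e
  have hF : 0 ≤ F := (norm_nonneg _).trans hb1
  have hnw := nw_of hB ho hc (ss x y) hF hr hr' hC hBs
  have hsl := H1 x y hx hxP (hy.trans (min_le_left _ _)) _ _ _ _ _ _ _ hnw ⟨b, hb⟩ (by rw [sl_zero]; exact hb1)
    (by rw [sl_zero]; exact hb2) (fun S h0 h1 h2 => conn_labels hG ho S h0 h1 (fun p hp => by
      obtain ⟨t, ht, q, hq, rfl⟩ := mem_crs ((hB.bxs.all p).2 hp)
      have hl := ltr_of hB.bxs ht hq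
      have h3 := h2 t ht q.2 (List.mem_map_of_mem hq) hl.lt
      rwa [hl.l, hl.r] at h3))
  have h3 := all_edges hK2 H2 hx hxP (hy.trans (min_le_right _ _)) hB ho hC hc hr (M := K1 / x * F) (by positivity) hsl e
  have e1 : (1 + K2 + K2 ^ 2) * K1 / x * F = (1 + K2 + K2 ^ 2) * (K1 / x * F) := by ring
  rw [e1]
  exact h3

/-- **UPPER**: bounds for all face values from the values at the cut edges and at the special crossings. -/
theorem upper (N : ℕ) (Phi : ℝ) (hPhi : 0 < Phi) : ∃ th > 0, ∃ K > 0, ∀ x y : ℝ, 0 < x → x ≤ Phi → |y| ≤ th →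
    ∀ (P : Type) (G : Sh P) (C : Finset P) (τ : P → ℕ) (H : Cut G.nxt G.op C τ) (Sp : P → Prop)
      (Bs : List (List P × List (P × ℕ))), (∀ p, G.op p ≠ p) → C.card ≤ N → Bs.length ≤ N →
      Bx3 H Sp Bs → ∀ (vL vR : P → ℂ) (M : ℝ), 0 ≤ M → (∀ p, G.lf p = true → Crn G.nxt G.op vL vR p) →
      (∀ b ∈ C, ‖vL b‖ ≤ M ∧ ‖vR b‖ ≤ M) →
      (∀ p, G.lf p = true → Sp p → ‖vR p‖ ≤ M) →
      (∀ p, G.lf p = true → ¬ Sp p → rowv G.nxt G.op (ss x y) vL vR p = 0) →
      ∀ e, ‖vL e‖ ≤ K * M ∧ ‖vR e‖ ≤ K * M := by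
  obtain ⟨th1, hth1, K1, hK1, H1⟩ := Pool.Agent.Helper57.PD.net_up N Phi hPhi
  obtain ⟨th2, hth2, de, hde, K2, hK2, H2⟩ := run_lemma N Phi hPhi
  refine ⟨min th1 th2, lt_min hth1 hth2, (1 + K2 + K2 ^ 2) * K1, by positivity, ?_⟩
  intro x y hx hxP hy P G C τ H Sp Bs ho hC hBs hB vL vR M hM hc hb hs hr e
  have hsl := H1 x y hx hxP (hy.trans (min_le_left _ _)) {x // x ∈ C} Bs.length M
    (fun t => (chn hB.bxs t, (crt Bs t).map Prod.snd)) (fun t l => vL (sl H Bs t l)) (fun t l => vR (sl H Bs t l))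
    (by simpa using hC) hBs hM (fun t ht => by
      have hbf := box_facts hB ho hc (ss x y) ht
      refine ⟨hbf.nd, ?_, ?_, fun j hj => hbf.adj j hj, ?_, ?_⟩
      · intro k hk
        obtain ⟨q, hq, rfl⟩ := List.mem_map.1 hk
        exact (hbf.ltr q hq).lt
      · intro l hl
        rw [sl_succ ht, stt_out (crt Bs t) hbf.ltr hl]
        exact ⟨rfl, rfl⟩
      · rw [sl_succ ht]
        exact fun j hj => (gp_run hbf.nd (ss x y) (crt Bs t) hbf.ltr hbf.crn hbf.lg hbf.adj).1 j hj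
      · rcases box_err hB ho hc (ss x y) hr ht with h | ⟨q, h1, h2, h3⟩
        · exact Or.inl h
        · right
          intro j hj
          have hq : q ∈ crt Bs t := by rw [h1]; simp
          have h4 := hbf.lg
          rw [h1] at h4
          have h5 := gp_step hbf.nd (hbf.ltr q hq) (hbf.crn q hq) h4.1 h4.2.1 hbf.adj
          have h6 : sl H Bs (t + 1) = stp H (sl H Bs t) q.1 := by
            rw [sl_succ ht, h1]
            rfl
          rw [h6]
          by_cases e1 : j = q.2 + 1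
          · left
            rw [e1, h5.2.1]
            exact hs _ (lf_of hB.bxs ht hq) h2
          · right
            exact h5.1 j hj e1) (fun i => by
      rw [sl_zero]
      exact hb i.1 i.2)
  have h3 := all_edges hK2 H2 hx hxP (hy.trans (min_le_right _ _)) hB ho hC hc hr (M := K1 * M) (by positivity) hsl e
  have e1 : (1 + K2 + K2 ^ 2) * K1 * M = (1 + K2 + K2 ^ 2) * (K1 * M) := by ring
  rw [e1]
  exact h3

/-- The corner equations of face values. -/
theorem crn_of (ho : ∀ p, G.op p ≠ p) (c : Pool.Agent.Helper2.PD.Face G → ℂ) {p : P} (hp : G.lf p = true) :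
    Crn G.nxt G.op (fun e => c (Pool.Agent.Helper2.PD.Lf G e)) (fun e => c (Pool.Agent.Helper2.PD.Rf G e)) p where
  W := congrArg c (Pool.Agent.Helper2.PD.corner_W hp (ho p))
  E := by
    have h := Pool.Agent.Helper2.PD.corner_E hp (ho p)
    unfold Pool.Agent.Helper41.PD.pr
    rw [G.op_op]
    exact congrArg c h
  S := by
    have h := Pool.Agent.Helper2.PD.corner_S hp
    unfold Pool.Agent.Helper41.PD.pr
    rw [G.op_op]
    exact congrArg c h
  N := congrArg c (Pool.Agent.Helper2.PD.corner_N hp)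

end Pool.Agent.Helper30.EV3
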