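import Pool.Agent.Helper30.EV3.Net
import Pool.Agent.Helper30.EV3.Strand
import Pool.Agent.Helper29.PD.H3Cut
import Pool.Agent.Helper57.PD.NetUp

/-!
# EV3: the network of a cut shadow with boxes
-/

set_option autoImplicit false

namespace Pool.Agent.Helper30.EV3

open Pool.Agent.Helper78.EV2 Pool.Agent.Helper78.EV Pool.Agent.Helper41.PD Pool.Agent.Helper85.Exp Pool.Agent.Helper29.PD

/-! ### Words on gap values -/

theorem lt_congr (s : ℂ) {n k : ℕ} (hk : k + 2 ≤ n) {g g' : ℕ → ℂ} (h : ∀ j ≤ n, g j = g' j) : ∀ j ≤ n, lt s k g j = lt s k g' j := by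
  intro j hj
  unfold lt
  rw [h j hj, h k (by omega), h (k + 2) (by omega), h (k + 1) (by omega)]

theorem Ev_congr (s : ℂ) {n : ℕ} (w : List ℕ) (hw : ∀ k ∈ w, k + 2 ≤ n) {g g' : ℕ → ℂ} (h : ∀ j ≤ n, g j = g' j) :
    ∀ j ≤ n, Ev s w g j = Ev s w g' j := by
  induction w generalizing g g' with
  | nil => exact h
  | cons k w ih =>
    intro j hj
    exact ih (fun k' hk' => hw k' (List.mem_cons_of_mem _ hk')) (lt_congr s (hw k (by simp)) h) j hj

/-! ### One letter -/

section Letter

variable {P : Type} {nxt : Equiv.Perm P} {op : P → P} {C : Finset P} {τ : P → ℕ} {H : Cut nxt op C τ} {vL vR : P → ℂ}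

/-- The corner equations for the values left and right of the edges at the crossing of `p`. -/
structure Crn (nxt : Equiv.Perm P) (op : P → P) (vL vR : P → ℂ) (p : P) : Prop where
  W : vL p = vL (pr nxt op p)
  E : vR (pr nxt op (op p)) = vR (op p)
  S : vL (pr nxt op (op p)) = vR (pr nxt op p)
  N : vR p = vL (op p)

/-- Neighbouring arcs of the chain have the same face between them. -/
def Adj (ch : List {x // x ∈ C}) (vL vR : P → ℂ) (cur : {x // x ∈ C} → P) : Prop :=
  ∀ (j : ℕ) (h : j + 1 < ch.length), vR (cur ch[j]) = vL (cur ch[j + 1])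

/-- The crossing `p` is the letter `k` of the chain `ch`. -/
structure Ltr (H : Cut nxt op C τ) (ch : List {x // x ∈ C}) (q : P × ℕ) : Prop where
  lt : q.2 + 1 < ch.length
  l : ch[q.2] = lb H q.1
  r : ch[q.2 + 1] = lb H (op q.1)

theorem Ltr.ne {ch : List {x // x ∈ C}} (hnd : ch.Nodup) {q : P × ℕ} (h : Ltr H ch q) : H.lab q.1 ≠ H.lab (op q.1) := by
  intro h1
  have hlt := h.lt
  have h2 : ch[q.2] = ch[q.2 + 1] := by
    rw [h.l, h.r]
    exact lb_inj.2 h1
  have := (hnd.getElem_inj_iff).1 h2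
  omega

/-- The left values of the chain after a letter. -/
theorem vL_step {ch : List {x // x ∈ C}} (hnd : ch.Nodup) {q : P × ℕ} (h : Ltr H ch q) (hc : Crn nxt op vL vR q.1)
    {cur : {x // x ∈ C} → P} (h1 : cur (lb H q.1) = pr nxt op q.1) {j : ℕ} (hj : j < ch.length)
    (hne : j ≠ q.2 + 1) : vL (stp H cur q.1 ch[j]) = vL (cur ch[j]) := by
  have hlt := h.lt
  by_cases e1 : j = q.2
  · subst e1
    rw [h.l, stp_left, h1]
    exact hc.W
  · rw [stp_of_ne]
    · intro e
      rw [← h.l] at e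
      exact e1 ((hnd.getElem_inj_iff).1 e)
    · intro e
      rw [← h.r] at e
      exact hne ((hnd.getElem_inj_iff).1 e)

theorem vR_step {ch : List {x // x ∈ C}} (hnd : ch.Nodup) {q : P × ℕ} (h : Ltr H ch q) (hc : Crn nxt op vL vR q.1)
    {cur : {x // x ∈ C} → P} (h2 : cur (lb H (op q.1)) = pr nxt op (op q.1)) {j : ℕ} (hj : j < ch.length)
    (hne : j ≠ q.2) : vR (stp H cur q.1 ch[j]) = vR (cur ch[j]) := by
  have hlt := h.lt
  by_cases e1 : j = q.2 + 1
  · subst e1
    rw [h.r, stp_right (h.ne hnd), h2]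
    exact hc.E.symm
  · rw [stp_of_ne]
    · intro e
      rw [← h.l] at e
      exact hne ((hnd.getElem_inj_iff).1 e)
    · intro e
      rw [← h.r] at e
      exact e1 ((hnd.getElem_inj_iff).1 e)

theorem Adj.step {ch : List {x // x ∈ C}} (hnd : ch.Nodup) {q : P × ℕ} (h : Ltr H ch q) (hc : Crn nxt op vL vR q.1)
    {cur : {x // x ∈ C} → P} (h1 : cur (lb H q.1) = pr nxt op q.1) (h2 : cur (lb H (op q.1)) = pr nxt op (op q.1))
    (ha : Adj ch vL vR cur) : Adj ch vL vR (stp H cur q.1) := by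
  have hlt := h.lt
  intro j hj
  by_cases e : j = q.2
  · subst e
    rw [h.l, h.r, stp_left, stp_right (h.ne hnd)]
    exact hc.N
  · rw [vR_step hnd h hc h2 (by omega) e, vL_step hnd h hc h1 hj (by omega)]
    exact ha j hj

/-- The gap values after a letter. -/
theorem gp_step {ch : List {x // x ∈ C}} (hnd : ch.Nodup) {q : P × ℕ} (h : Ltr H ch q) (hc : Crn nxt op vL vR q.1)
    {cur : {x // x ∈ C} → P} (h1 : cur (lb H q.1) = pr nxt op q.1) (h2 : cur (lb H (op q.1)) = pr nxt op (op q.1))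
    (ha : Adj ch vL vR cur) :
    (∀ j ≤ ch.length, j ≠ q.2 + 1 → gp (fun l => vL (stp H cur q.1 l)) (fun l => vR (stp H cur q.1 l)) ch j =
      gp (fun l => vL (cur l)) (fun l => vR (cur l)) ch j) ∧
    gp (fun l => vL (stp H cur q.1 l)) (fun l => vR (stp H cur q.1 l)) ch (q.2 + 1) = vR q.1 ∧
    gp (fun l => vL (cur l)) (fun l => vR (cur l)) ch q.2 = vL q.1 ∧
    gp (fun l => vL (cur l)) (fun l => vR (cur l)) ch (q.2 + 1) = vR (pr nxt op q.1) ∧
    gp (fun l => vL (cur l)) (fun l => vR (cur l)) ch (q.2 + 2) = vR (op q.1) := by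
  have hlt := h.lt
  refine ⟨?_, ?_, ?_, ?_, ?_⟩
  · intro j hj hne
    cases j with
    | zero =>
      have e1 : 0 < ch.length := by omega
      have e2 : ∀ (f g : {x // x ∈ C} → ℂ), gp f g ch 0 = f ch[0] := by
        intro f g
        simp [gp, List.getElem?_eq_getElem e1]
      rw [e2, e2]
      exact vL_step hnd h hc h1 e1 hne
    | succ j =>
      rw [gp_succ _ _ hj, gp_succ _ _ hj]
      exact vR_step hnd h hc h2 hj (by omega)
  · rw [gp_succ _ _ (by omega), h.l]
    show vR (stp H cur q.1 (lb H q.1)) = _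
    rw [stp_left]
  · rw [gp_left (eL := fun l => vL (cur l)) (eR := fun l => vR (cur l)) (fun j hj => ha j hj) (by omega), h.l]
    show vL (cur (lb H q.1)) = _
    rw [h1, hc.W]
  · rw [gp_succ _ _ (by omega), h.l]
    show vR (cur (lb H q.1)) = _
    rw [h1]
  · rw [gp_succ _ _ (by omega), h.r]
    show vR (cur (lb H (op q.1))) = _
    rw [h2, hc.E]

/-- The row of a positive crossing. -/
def rowv (nxt : Equiv.Perm P) (op : P → P) (s : ℂ) (vL vR : P → ℂ) (p : P) : ℂ :=
  vR p - (s * (vL p + vR (op p)) - s ^ 2 * vR (pr nxt op p))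

theorem gp_lt {ch : List {x // x ∈ C}} (hnd : ch.Nodup) {q : P × ℕ} (h : Ltr H ch q) (hc : Crn nxt op vL vR q.1)
    {cur : {x // x ∈ C} → P} (h1 : cur (lb H q.1) = pr nxt op q.1) (h2 : cur (lb H (op q.1)) = pr nxt op (op q.1))
    (ha : Adj ch vL vR cur) (s : ℂ) {j : ℕ} (hj : j ≤ ch.length) :
    gp (fun l => vL (stp H cur q.1 l)) (fun l => vR (stp H cur q.1 l)) ch j -
      lt s q.2 (gp (fun l => vL (cur l)) (fun l => vR (cur l)) ch) j = if j = q.2 + 1 then rowv nxt op s vL vR q.1 else 0 := by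
  obtain ⟨g1, g2, g3, g4, g5⟩ := gp_step hnd h hc h1 h2 ha
  unfold lt
  by_cases e : j = q.2 + 1
  · subst e
    rw [if_pos rfl, if_pos rfl, g2, g3, g4, g5]
    rfl
  · rw [if_neg e, if_neg e, g1 j hj e, sub_self]

/-- The crossings of the list are processed in the order of the strands. -/
def Lg (H : Cut nxt op C τ) (cur : {x // x ∈ C} → P) : List P → Prop
  | [] => True
  | p :: X => cur (lb H p) = pr nxt op p ∧ cur (lb H (op p)) = pr nxt op (op p) ∧ Lg H (stp H cur p) X

theorem Lg.append {cur : {x // x ∈ C} → P} {X Y : List P} (h : Lg H cur (X ++ Y)) : Lg H cur X ∧ Lg H (stt H cur X) Y := by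
  induction X generalizing cur with
  | nil => exact ⟨trivial, h⟩
  | cons p X ih =>
    obtain ⟨h1, h2, h3⟩ := h
    obtain ⟨h4, h5⟩ := ih h3
    exact ⟨⟨h1, h2, h4⟩, h5⟩

theorem lg_of {pre mid suf : List P} (hord : Ord H (pre ++ mid ++ suf)) (hall : ∀ e, e ∈ pre ++ mid ++ suf ∨ op e ∈ pre ++ mid ++ suf)
    (hne : ∀ p' ∈ pre ++ mid ++ suf, H.lab p' ≠ H.lab (op p')) : Lg H (stt H (fun l => l.1) pre) mid := by
  induction mid generalizing pre with
  | nil => trivial
  | cons p mid ih =>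
    have e1 : pre ++ p :: mid ++ suf = pre ++ p :: (mid ++ suf) := by simp
    have e2 : pre ++ p :: mid ++ suf = pre ++ [p] ++ mid ++ suf := by simp
    have h1 := cur_at (H := H) (pre := pre) (p := p) (suf := mid ++ suf) (by rwa [e1] at hord) (by rwa [e1] at hall) (by rwa [e1] at hne)
    refine ⟨h1.1, h1.2, ?_⟩
    have h2 := ih (pre := pre ++ [p]) (by rwa [e2] at hord) (by rwa [e2] at hall) (by rwa [e2] at hne)
    rwa [stt_append] at h2

/-- The word of a regular box acts on the gap values. -/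
theorem gp_run {ch : List {x // x ∈ C}} (hnd : ch.Nodup) (s : ℂ) (cs : List (P × ℕ)) (hl : ∀ q ∈ cs, Ltr H ch q)
    (hc : ∀ q ∈ cs, Crn nxt op vL vR q.1) {cur : {x // x ∈ C} → P} (hg : Lg H cur (cs.map Prod.fst))
    (ha : Adj ch vL vR cur) :
    Adj ch vL vR (stt H cur (cs.map Prod.fst)) ∧ ((∀ q ∈ cs, rowv nxt op s vL vR q.1 = 0) → ∀ j ≤ ch.length,
      gp (fun l => vL (stt H cur (cs.map Prod.fst) l)) (fun l => vR (stt H cur (cs.map Prod.fst) l)) ch j =
        Ev s (cs.map Prod.snd) (gp (fun l => vL (cur l)) (fun l => vR (cur l)) ch) j) := by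
  induction cs generalizing cur with
  | nil => exact ⟨ha, fun _ _ _ => rfl⟩
  | cons q cs ih =>
    obtain ⟨h1, h2, h3⟩ := hg
    have hq := hl q (by simp)
    have hcq := hc q (by simp)
    have ha' := ha.step hnd hq hcq h1 h2
    obtain ⟨i1, i2⟩ := ih (fun q' hq' => hl q' (List.mem_cons_of_mem _ hq')) (fun q' hq' => hc q' (List.mem_cons_of_mem _ hq'))
      (cur := stp H cur q.1) h3 ha'
    refine ⟨i1, fun hr j hj => ?_⟩
    have e1 := i2 (fun q' hq' => hr q' (List.mem_cons_of_mem _ hq')) j hj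
    show gp (fun l => vL (stt H (stp H cur q.1) (cs.map Prod.fst) l)) (fun l => vR (stt H (stp H cur q.1) (cs.map Prod.fst) l)) ch j = _
    rw [e1]
    refine Ev_congr s (n := ch.length) _ ?_ ?_ j hj
    · intro k hk
      obtain ⟨q', hq', rfl⟩ := List.mem_map.1 hk
      have := (hl q' (List.mem_cons_of_mem _ hq')).lt
      omega
    · intro j hj
      have := gp_lt hnd hq hcq h1 h2 ha s hj
      rw [hr q (by simp), ite_self, sub_eq_zero] at this
      exact this

/-- The arcs of the chain have the same face between them at the beginning of a box. -/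
theorem adj_start {ch : List {x // x ∈ C}} (hnd : ch.Nodup) (cs : List (P × ℕ)) (hl : ∀ q ∈ cs, Ltr H ch q)
    (hc : ∀ q ∈ cs, Crn nxt op vL vR q.1) {cur : {x // x ∈ C} → P} (hg : Lg H cur (cs.map Prod.fst)) {j : ℕ}
    (hj : j + 1 < ch.length) (hu : ∃ q ∈ cs, q.2 = j) : vR (cur ch[j]) = vL (cur ch[j + 1]) := by
  induction cs generalizing cur with
  | nil =>
    obtain ⟨q, hq, _⟩ := hu
    simp at hq
  | cons q cs ih =>
    obtain ⟨h1, h2, h3⟩ := hg
    have hq := hl q (by simp)
    have hcq := hc q (by simp)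
    by_cases e : q.2 = j
    · subst e
      rw [hq.l, hq.r, h1, h2]
      exact hcq.S.symm
    · have h4 := ih (fun q' hq' => hl q' (List.mem_cons_of_mem _ hq')) (fun q' hq' => hc q' (List.mem_cons_of_mem _ hq'))
        (cur := stp H cur q.1) h3 (by
          obtain ⟨q', hq', he⟩ := hu
          rcases List.mem_cons.1 hq' with rfl | h5
          · exact absurd he e
          · exact ⟨q', h5, he⟩)
      rw [vR_step hnd hq hcq h2 (by omega) (fun h => e h.symm), vL_step hnd hq hcq h1 hj (by omega)] at h4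
      exact h4

/-- Arcs outside the chain do not change. -/
theorem stt_out {ch : List {x // x ∈ C}} (cs : List (P × ℕ)) (hl : ∀ q ∈ cs, Ltr H ch q) {cur : {x // x ∈ C} → P}
    {l : {x // x ∈ C}} (h : l ∉ ch) : stt H cur (cs.map Prod.fst) l = cur l := by
  induction cs generalizing cur with
  | nil => rfl
  | cons q cs ih =>
    have h1 := ih (fun q' hq' => hl q' (List.mem_cons_of_mem _ hq')) (cur := stp H cur q.1)
    show stt H (stp H cur q.1) (cs.map Prod.fst) l = cur l
    rw [h1]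
    have hq := hl q (by simp)
    apply stp_of_ne
    · rintro rfl
      rw [← hq.l] at h
      exact h (List.getElem_mem _)
    · rintro rfl
      rw [← hq.r] at h
      exact h (List.getElem_mem _)

end Letter

end Pool.Agent.Helper30.EV3
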