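import Pool.Agent.Helper78.EV2.NetMain
import Pool.Agent.Helper78.EV2.RunLemma

/-!
# The network theorem for boxes on labelled arcs (MP_ea8a26_gt, project EV3)

`n` arcs with labels in a finite type `ι`, slices `t = 0, ..., T`, between the slices `t` and `t + 1` a box: a chain `ch` of arcs, from the left to the
right, and a word `w` of crossings of consecutive arcs of the chain. `eL t i`, `eR t i`: the values at the faces to the left and to the right of the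
arc `i` in the slice `t`. The arc `i` of the last slice is continued by the arc `π i` of the first slice.
-/

set_option autoImplicit false

namespace Pool.Agent.Helper30.EV3

open Pool.Agent.Helper78.EV2 Pool.Agent.Helper78.EV

variable {ι : Type*}

/-- The gap values of a chain. -/
def gp (eL eR : ι → ℂ) (ch : List ι) : ℕ → ℂ
  | 0 => (ch[0]?).elim 0 eL
  | j + 1 => (ch[j]?).elim 0 eR

/-- A box between two slices, with errors at most `F`. -/
structure Bx (s : ℂ) (F : ℝ) (ch : List ι) (w : List ℕ) (eL eR eL' eR' : ι → ℂ) : Prop where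
  nd : ch.Nodup
  hw : ∀ k ∈ w, k + 1 < ch.length
  out : ∀ i, i ∉ ch → eL' i = eL i ∧ eR' i = eR i
  adj : ∀ (j : ℕ) (h : j + 1 < ch.length), eR ch[j] = eL ch[j + 1]
  adj' : ∀ (j : ℕ) (h : j + 1 < ch.length), eR' ch[j] = eL' ch[j + 1]
  run : ∀ j ≤ ch.length, ‖gp eL' eR' ch j - Ev s w (gp eL eR ch) j‖ ≤ F

theorem gp_succ (eL eR : ι → ℂ) {ch : List ι} {j : ℕ} (h : j < ch.length) : gp eL eR ch (j + 1) = eR ch[j] := by
  simp [gp, List.getElem?_eq_getElem h]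

theorem gp_left {eL eR : ι → ℂ} {ch : List ι} (hadj : ∀ (j : ℕ) (h : j + 1 < ch.length), eR ch[j] = eL ch[j + 1])
    {j : ℕ} (h : j < ch.length) : gp eL eR ch j = eL ch[j] := by
  cases j with
  | zero => simp [gp, List.getElem?_eq_getElem h]
  | succ j => rw [gp_succ eL eR (by omega), hadj j h]

theorem gp_le {eL eR : ι → ℂ} {ch : List ι} {V : ℝ} (hV : 0 ≤ V) (h : ∀ i, ‖eL i‖ ≤ V ∧ ‖eR i‖ ≤ V) (j : ℕ) :
    ‖gp eL eR ch j‖ ≤ V := by
  cases j with
  | zero =>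
    show ‖(ch[0]?).elim 0 eL‖ ≤ V
    rcases ch[0]? with _ | a
    · simpa using hV
    · exact (h a).1
  | succ j =>
    show ‖(ch[j]?).elim 0 eR‖ ≤ V
    rcases ch[j]? with _ | a
    · simpa using hV
    · exact (h a).2

/-- The energy of a slice. -/
noncomputable def En' (x y : ℝ) [Fintype ι] (eL eR : ι → ℂ) : ℝ := ∑ i, En x y (eL i) (eR i)

theorem sum_chain [Fintype ι] {ch : List ι} (hnd : ch.Nodup) (f : ι → ℝ) (h0 : ∀ i, i ∉ ch → f i = 0) :
    ∑ i, f i = ∑ j ∈ Finset.range ch.length, if h : j < ch.length then f ch[j] else 0 := by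
  classical
  have h1 : ∑ i, f i = ∑ i ∈ ch.toFinset, f i := by
    symm
    apply Finset.sum_subset (Finset.subset_univ _)
    intro i _ hi
    exact h0 i (by simpa using hi)
  rw [h1, List.sum_toFinset f hnd, Finset.sum_range]
  rw [← Fin.sum_univ_getElem, Fin.sum_congr' (fun i : Fin (ch.map f).length => (ch.map f)[(i : ℕ)]) (by simp : ch.length = (ch.map f).length) |>.symm]
  refine Finset.sum_congr rfl fun i _ => ?_
  simp

theorem Bx.energy [Fintype ι] {x y : ℝ} {F : ℝ} {ch : List ι} {w : List ℕ} {eL eR eL' eR' : ι → ℂ}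
    (h : Bx (ss x y) F ch w eL eR eL' eR') :
    En' x y eL eR - En' x y eL' eR' = ∑ j ∈ Finset.range ch.length,
      (En x y (gp eL eR ch j) (gp eL eR ch (j + 1)) - En x y (gp eL' eR' ch j) (gp eL' eR' ch (j + 1))) := by
  unfold En'
  rw [← Finset.sum_sub_distrib, sum_chain h.nd]
  · refine Finset.sum_congr rfl fun j hj => ?_
    have hj' := Finset.mem_range.1 hj
    rw [dif_pos hj', gp_left h.adj hj', gp_left h.adj' hj', gp_succ _ _ hj', gp_succ _ _ hj']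
  · intro i hi
    rw [(h.out i hi).1, (h.out i hi).2, sub_self]

theorem En_diff {x y : ℝ} (hC : 0 ≤ Real.cosh x * Real.cos y) {V F : ℝ} {u v u' v' : ℂ}
    (hu : ‖u‖ ≤ V) (hv : ‖v‖ ≤ V) (hu' : ‖u'‖ ≤ V) (hv' : ‖v'‖ ≤ V) (h1 : ‖u - u'‖ ≤ F) (h2 : ‖v - v'‖ ≤ F) :
    En x y u v - En x y u' v' ≤ 2 * (Real.cosh x * Real.cos y + 1) * V * F :=
  ee_diff_le hC hu hv hu' hv' h1 h2

/-- A closed network of boxes. -/
structure Nw (N : ℕ) (s : ℂ) (F : ℝ) [Fintype ι] (T : ℕ) (bx : ℕ → List ι × List ℕ) (eL eR : ℕ → ι → ℂ) (π : Equiv.Perm ι) : Prop where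
  hN : Fintype.card ι ≤ N
  hT : T ≤ N
  box : ∀ t < T, Bx s F (bx t).1 (bx t).2 (eL t) (eR t) (eL (t + 1)) (eR (t + 1))
  cl : ∀ i, eL T i = eL 0 (π i) ∧ eR T i = eR 0 (π i)

/-- The links of the network: nodes are a slice and an arc. -/
inductive Lk (T : ℕ) (bx : ℕ → List ι × List ℕ) (π : Equiv.Perm ι) : ℕ × ι → ℕ × ι → Prop
  | dn {t : ℕ} {i : ι} (ht : t < T) : Lk T bx π (t, i) (t + 1, i)
  | cl {i : ι} : Lk T bx π (T, i) (0, π i)
  | cr {t k : ℕ} (ht : t < T) (hk : k ∈ (bx t).2) (h : k + 1 < (bx t).1.length) : Lk T bx π (t, (bx t).1[k]) (t, (bx t).1[k + 1])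

/-- Both faces next to the arc `p.2` in the slice `p.1` are at most `D`. -/
def Gd (eL eR : ℕ → ι → ℂ) (p : ℕ × ι) (D : ℝ) : Prop := ‖eL p.1 p.2‖ ≤ D ∧ ‖eR p.1 p.2‖ ≤ D

theorem norm_two_cosh_le {x y Phi : ℝ} (hx : 0 < x) (hxP : x ≤ Phi) :
    ‖2 * Complex.cosh ((x : ℂ) + y * Complex.I)‖ ≤ 2 * Real.exp Phi := by
  rw [Complex.cosh, mul_div_cancel₀ _ (two_ne_zero)]
  refine (norm_add_le _ _).trans ?_
  rw [Complex.norm_exp, Complex.norm_exp]
  have e1 : ((x : ℂ) + y * Complex.I).re = x := by simp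
  have e2 : (-((x : ℂ) + y * Complex.I)).re = -x := by simp
  rw [e1, e2]
  have h1 : Real.exp x ≤ Real.exp Phi := Real.exp_le_exp.2 hxP
  have h2 : Real.exp (-x) ≤ Real.exp Phi := Real.exp_le_exp.2 (by linarith)
  linarith

/-- The estimates for one box. -/
theorem Bx.est [Fintype ι] {N : ℕ} {Phi th de K : ℝ} (hK : 0 < K)
    (H : ∀ x y : ℝ, 0 < x → x ≤ Phi → |y| ≤ th → ∀ n ≤ N, ∀ w : List ℕ, (∀ k ∈ w, k + 2 ≤ n) →
      ∀ (c : ℕ → ℂ) (M : ℝ), (∀ j ≤ n, ‖c j‖ ≤ M) → ∃ (p : ℕ → ℂ) (e : ℝ), 0 ≤ e ∧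
        (∀ j ≤ n, ‖c j - p j‖ ≤ K * e) ∧ (∀ j ≤ n, ‖Ev (ss x y) w c j - p j‖ ≤ K * e) ∧
        (∀ k ∈ w, p k + p (k + 2) = 2 * Complex.cosh ((x : ℂ) + y * Complex.I) * p (k + 1)) ∧
        (∀ j ≤ n, ‖p j‖ ≤ K * M) ∧ e ≤ K * M ∧
        de * x * e ^ 2 - K * x * |y| * e * M ≤ ∑ j ∈ Finset.range n,
          (En x y (c j) (c (j + 1)) - En x y (Ev (ss x y) w c j) (Ev (ss x y) w c (j + 1))))
    (hN : Fintype.card ι ≤ N) {x y : ℝ} (hx : 0 < x) (hxP : x ≤ Phi) (hy : |y| ≤ th)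
    (hC : 0 ≤ Real.cosh x * Real.cos y) (hC2 : Real.cosh x * Real.cos y ≤ Real.exp Phi) {F V : ℝ} (hF : 0 ≤ F) (hV : 0 ≤ V)
    {ch : List ι} {w : List ℕ} {eL eR eL' eR' : ι → ℂ} (h : Bx (ss x y) F ch w eL eR eL' eR')
    (h1 : ∀ i, ‖eL i‖ ≤ V ∧ ‖eR i‖ ≤ V) (h2 : ∀ i, ‖eL' i‖ ≤ V ∧ ‖eR' i‖ ≤ V) :
    ∃ e : ℝ, 0 ≤ e ∧ e ≤ K * V ∧
      (∀ i, ∀ D, ‖eL i‖ ≤ D ∧ ‖eR i‖ ≤ D → ‖eL' i‖ ≤ D + 2 * (K * e + F) ∧ ‖eR' i‖ ≤ D + 2 * (K * e + F)) ∧
      (∀ i, ∀ D, ‖eL' i‖ ≤ D ∧ ‖eR' i‖ ≤ D → ‖eL i‖ ≤ D + 2 * (K * e + F) ∧ ‖eR i‖ ≤ D + 2 * (K * e + F)) ∧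
      (∀ k ∈ w, ∀ hk : k + 1 < ch.length, ∀ D, 0 ≤ D →
        ((‖eL ch[k]‖ ≤ D ∧ ‖eR ch[k]‖ ≤ D) → (‖eL ch[k + 1]‖ ≤ (2 + 2 * Real.exp Phi) * (D + (K * e + F)) ∧
          ‖eR ch[k + 1]‖ ≤ (2 + 2 * Real.exp Phi) * (D + (K * e + F)))) ∧
        ((‖eL ch[k + 1]‖ ≤ D ∧ ‖eR ch[k + 1]‖ ≤ D) → (‖eL ch[k]‖ ≤ (2 + 2 * Real.exp Phi) * (D + (K * e + F)) ∧
          ‖eR ch[k]‖ ≤ (2 + 2 * Real.exp Phi) * (D + (K * e + F))))) ∧
      de * x * e ^ 2 - K * x * |y| * e * V - N * (2 * (Real.exp Phi + 1) * (V + F) * F) ≤ En' x y eL eR - En' x y eL' eR' := by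
  have hm : ch.length ≤ N := (List.Nodup.length_le_card h.nd).trans hN
  obtain ⟨p, e, he, a1, a2, a3, a4, a5, a6⟩ := H x y hx hxP hy ch.length hm w (fun k hk => by have := h.hw k hk; omega)
    (gp eL eR ch) V (fun j _ => gp_le hV h1 j)
  have hEp := Real.exp_pos Phi
  have hKe : 0 ≤ K * e := by positivity
  -- the values below the box
  have a2' : ∀ j ≤ ch.length, ‖gp eL' eR' ch j - p j‖ ≤ K * e + F := by
    intro j hj
    have e1 : gp eL' eR' ch j - p j = (gp eL' eR' ch j - Ev (ss x y) w (gp eL eR ch) j) + (Ev (ss x y) w (gp eL eR ch) j - p j) := by ring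
    rw [e1]
    refine (norm_add_le _ _).trans ?_
    have := h.run j hj
    have := a2 j hj
    linarith
  have hdiff : ∀ j ≤ ch.length, ‖gp eL' eR' ch j - gp eL eR ch j‖ ≤ 2 * (K * e + F) := by
    intro j hj
    have e1 : gp eL' eR' ch j - gp eL eR ch j = (gp eL' eR' ch j - p j) - (gp eL eR ch j - p j) := by ring
    rw [e1]
    refine (norm_sub_le _ _).trans ?_
    have := a2' j hj
    have := a1 j hj
    linarith
  have hclose : ∀ i, ‖eL' i - eL i‖ ≤ 2 * (K * e + F) ∧ ‖eR' i - eR i‖ ≤ 2 * (K * e + F) := by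
    intro i
    by_cases hi : i ∈ ch
    · obtain ⟨j, hj, rfl⟩ := List.getElem_of_mem hi
      have b1 := hdiff j hj.le
      have b2 := hdiff (j + 1) hj
      rw [gp_left h.adj hj, gp_left h.adj' hj] at b1
      rw [gp_succ _ _ hj, gp_succ _ _ hj] at b2
      exact ⟨b1, b2⟩
    · rw [(h.out i hi).1, (h.out i hi).2, sub_self, sub_self, norm_zero]
      exact ⟨by positivity, by positivity⟩
  refine ⟨e, he, a5, ?_, ?_, ?_, ?_⟩
  · intro i D hD
    exact ⟨le_of_defect hD.1 (hclose i).1, le_of_defect hD.2 (hclose i).2⟩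
  · intro i D hD
    have b := hclose i
    rw [norm_sub_rev (eL' i), norm_sub_rev (eR' i)] at b
    exact ⟨le_of_defect hD.1 b.1, le_of_defect hD.2 b.2⟩
  · intro k hk hk1 D hD
    have b := a3 k hk
    have hcosh := norm_two_cosh_le (y := y) hx hxP
    have p0 := a1 k (by omega)
    have p1 := a1 (k + 1) (by omega)
    have p2 := a1 (k + 2) (by omega)
    have c0 : gp eL eR ch k = eL ch[k] := gp_left h.adj (by omega)
    have c1 : gp eL eR ch (k + 1) = eR ch[k] := gp_succ _ _ (by omega)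
    have c1' : gp eL eR ch (k + 1) = eL ch[k + 1] := gp_left h.adj hk1
    have c2 : gp eL eR ch (k + 2) = eR ch[k + 1] := gp_succ _ _ hk1
    have hs : ∀ j, ‖gp eL eR ch j - p j‖ ≤ K * e → ‖gp eL eR ch j‖ ≤ D → ‖p j‖ ≤ D + K * e := by
      intro j hj1 hj2
      rw [norm_sub_rev] at hj1
      exact le_of_defect hj2 hj1
    have hs' : ∀ j, ‖gp eL eR ch j - p j‖ ≤ K * e → ∀ D', ‖p j‖ ≤ D' → ‖gp eL eR ch j‖ ≤ D' + K * e :=
      fun j hj1 D' hj2 => le_of_defect hj2 hj1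
    have hbig : D ≤ (2 + 2 * Real.exp Phi) * (D + (K * e + F)) := by nlinarith
    have hfin : (D + K * e) + 2 * Real.exp Phi * (D + K * e) + K * e ≤ (2 + 2 * Real.exp Phi) * (D + (K * e + F)) := by
      nlinarith
    constructor
    · rintro ⟨g1, g2⟩
      rw [← c0] at g1
      rw [← c1] at g2
      refine ⟨?_, ?_⟩
      · rw [← c1']
        exact g2.trans hbig
      · rw [← c2]
        refine le_trans (hs' (k + 2) p2 ((D + K * e) + 2 * Real.exp Phi * (D + K * e)) ?_) hfin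
        have e1 : p (k + 2) = 2 * Complex.cosh ((x : ℂ) + y * Complex.I) * p (k + 1) - p k := by rw [← b]; ring
        rw [e1]
        refine (norm_sub_le _ _).trans ?_
        rw [norm_mul]
        have e2 := hs k p0 g1
        have e3 := hs (k + 1) p1 g2
        have e4 := mul_le_mul hcosh e3 (norm_nonneg _) (by positivity)
        linarith
    · rintro ⟨g1, g2⟩
      rw [← c1'] at g1
      rw [← c2] at g2
      refine ⟨?_, ?_⟩
      · rw [← c0]
        refine le_trans (hs' k p0 ((D + K * e) + 2 * Real.exp Phi * (D + K * e)) ?_) hfin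
        have e1 : p k = 2 * Complex.cosh ((x : ℂ) + y * Complex.I) * p (k + 1) - p (k + 2) := by rw [← b]; ring
        rw [e1]
        refine (norm_sub_le _ _).trans ?_
        rw [norm_mul]
        have e2 := hs (k + 2) p2 g2
        have e3 := hs (k + 1) p1 g1
        have e4 := mul_le_mul hcosh e3 (norm_nonneg _) (by positivity)
        linarith
      · rw [← c1]
        exact g1.trans hbig
  · rw [h.energy]
    have hEv : ∀ j ≤ ch.length, ‖Ev (ss x y) w (gp eL eR ch) j‖ ≤ V + F := by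
      intro j hj
      have b := h.run j hj
      rw [norm_sub_rev] at b
      exact le_of_defect (gp_le hV h2 j) b
    have hcmp : ∑ j ∈ Finset.range ch.length, (En x y (gp eL' eR' ch j) (gp eL' eR' ch (j + 1)) -
        En x y (Ev (ss x y) w (gp eL eR ch) j) (Ev (ss x y) w (gp eL eR ch) (j + 1))) ≤
        N * (2 * (Real.exp Phi + 1) * (V + F) * F) := by
      have b1 : ∀ j ∈ Finset.range ch.length, En x y (gp eL' eR' ch j) (gp eL' eR' ch (j + 1)) -
          En x y (Ev (ss x y) w (gp eL eR ch) j) (Ev (ss x y) w (gp eL eR ch) (j + 1)) ≤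
          2 * (Real.exp Phi + 1) * (V + F) * F := by
        intro j hj
        have hj' := Finset.mem_range.1 hj
        have b2 := En_diff hC (V := V + F) (F := F) ((gp_le hV h2 j).trans (by linarith : V ≤ V + F))
          ((gp_le hV h2 (j + 1)).trans (by linarith : V ≤ V + F)) (hEv j hj'.le) (hEv (j + 1) hj')
          (h.run j hj'.le) (h.run (j + 1) hj')
        refine b2.trans ?_
        have b3 : 0 ≤ (V + F) * F := by positivity
        nlinarith
      refine (Finset.sum_le_sum b1).trans ?_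
      rw [Finset.sum_const, Finset.card_range, nsmul_eq_mul]
      apply mul_le_mul_of_nonneg_right _ (by positivity)
      exact_mod_cast hm
    have e1 : ∑ j ∈ Finset.range ch.length, (En x y (gp eL eR ch j) (gp eL eR ch (j + 1)) -
        En x y (gp eL' eR' ch j) (gp eL' eR' ch (j + 1))) =
        ∑ j ∈ Finset.range ch.length, (En x y (gp eL eR ch j) (gp eL eR ch (j + 1)) -
          En x y (Ev (ss x y) w (gp eL eR ch) j) (Ev (ss x y) w (gp eL eR ch) (j + 1))) -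
        ∑ j ∈ Finset.range ch.length, (En x y (gp eL' eR' ch j) (gp eL' eR' ch (j + 1)) -
          En x y (Ev (ss x y) w (gp eL eR ch) j) (Ev (ss x y) w (gp eL eR ch) (j + 1))) := by
      rw [← Finset.sum_sub_distrib]
      refine Finset.sum_congr rfl fun j _ => ?_
      ring
    rw [e1]
    linarith

/-- **The network theorem for boxes on labelled arcs.** -/
theorem net (N : ℕ) (Phi : ℝ) (hPhi : 0 < Phi) : ∃ th > 0, ∃ K > 0, ∀ x y : ℝ, 0 < x → x ≤ Phi → |y| ≤ th →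
    ∀ (ι : Type) [Fintype ι] (T : ℕ) (F : ℝ) (bx : ℕ → List ι × List ℕ) (eL eR : ℕ → ι → ℂ) (π : Equiv.Perm ι),
      Nw N (ss x y) F T bx eL eR π → ∀ i0 : ι, ‖eL 0 i0‖ ≤ F → ‖eR 0 i0‖ ≤ F →
      (∀ S : ι → Prop, S i0 → (∀ i, S i ↔ S (π i)) →
        (∀ t < T, ∀ k ∈ (bx t).2, ∀ h : k + 1 < (bx t).1.length, S (bx t).1[k] ↔ S (bx t).1[k + 1]) → ∀ i, S i) →
      ∀ t ≤ T, ∀ i, ‖eL t i‖ ≤ K / x * F ∧ ‖eR t i‖ ≤ K / x * F := by
  obtain ⟨th0, hth0, de, hde, K, hK, H⟩ := run_lemma N Phi hPhi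
  have hE : 1 ≤ Real.exp Phi := Real.one_le_exp hPhi.le
  obtain ⟨Kl, hKl⟩ : ∃ Kl, Kl = 2 + 2 * Real.exp Phi := ⟨_, rfl⟩
  have hKl1 : 1 ≤ Kl := by rw [hKl]; linarith
  have hKl2 : 2 ≤ Kl := by rw [hKl]; linarith
  obtain ⟨Kp, hKp⟩ : ∃ Kp, Kp = (2 * Kl) ^ ((N + 1) * N) := ⟨_, rfl⟩
  have hKp1 : 1 ≤ Kp := by
    rw [hKp]
    exact one_le_pow₀ (by linarith)
  obtain ⟨M, hM⟩ : ∃ M, M = 4 * Kp ^ 2 * (N + 1) * K ^ 4 / de + 1 := ⟨_, rfl⟩
  have hM1 : 1 ≤ M := by
    rw [hM]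
    have : 0 ≤ 4 * Kp ^ 2 * (N + 1) * K ^ 4 / de := by positivity
    linarith
  obtain ⟨K', hK'⟩ : ∃ K', K' = N * (2 * (Real.exp Phi + 1)) := ⟨_, rfl⟩
  have hK'0 : 0 ≤ K' := by rw [hK']; positivity
  obtain ⟨A, hA⟩ : ∃ A, A = 4 * Kp ^ 2 * K ^ 2 * N * K' / de := ⟨_, rfl⟩
  obtain ⟨G, hG⟩ : ∃ G, G = 4 * Kp ^ 2 := ⟨_, rfl⟩
  have hA0 : 0 ≤ A := by rw [hA]; positivity
  have hG0 : 0 ≤ G := by rw [hG]; positivity
  refine ⟨min th0 (min 1 (1 / M)), lt_min hth0 (lt_min one_pos (by positivity)),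
    A + (A * Phi + G * Phi ^ 2) + 1, by positivity, ?_⟩
  intro x y hx hxP hy ι _ T F bx eL eR π h i0 hb1 hb2 hconn
  classical
  have y1 : |y| ≤ th0 := hy.trans (min_le_left _ _)
  have y2 : |y| ≤ 1 := hy.trans ((min_le_right _ _).trans (min_le_left _ _))
  have y3 : |y| ≤ 1 / M := hy.trans ((min_le_right _ _).trans (min_le_right _ _))
  have hF : 0 ≤ F := (norm_nonneg _).trans hb1
  have hy0 := abs_nonneg y
  have hysq : y ^ 2 ≤ |y| := by
    rw [← sq_abs]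
    nlinarith
  have hcos := Real.one_sub_sq_div_two_le_cos (x := y)
  have hcos1 : 1 / 2 ≤ Real.cos y := by linarith
  have hcos2 := Real.cos_le_one y
  have hch1 := Real.one_le_cosh x
  have hch2 : Real.cosh x ≤ Real.exp Phi := by
    rw [Real.cosh_eq]
    have h1 : Real.exp x ≤ Real.exp Phi := Real.exp_le_exp.2 hxP
    have h2 : Real.exp (-x) ≤ Real.exp Phi := Real.exp_le_exp.2 (by linarith)
    linarith
  have hC : 0 ≤ Real.cosh x * Real.cos y := by positivity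
  have hC2 : Real.cosh x * Real.cos y ≤ Real.exp Phi := by nlinarith
  -- the maximum
  obtain ⟨Nd, hNd⟩ : ∃ Nd, Nd = (Finset.range (T + 1)) ×ˢ (Finset.univ : Finset ι) := ⟨_, rfl⟩
  have hmem : ∀ p : ℕ × ι, p ∈ Nd ↔ p.1 ≤ T := by
    intro p
    rw [hNd, Finset.mem_product, Finset.mem_range]
    simp [Nat.lt_succ_iff]
  obtain ⟨am, ham, hmax⟩ := Finset.exists_max_image Nd
    (fun a => max ‖eL a.1 a.2‖ ‖eR a.1 a.2‖) ⟨(0, i0), (hmem _).2 (Nat.zero_le _)⟩
  obtain ⟨V, hV⟩ : ∃ V, V = max ‖eL am.1 am.2‖ ‖eR am.1 am.2‖ := ⟨_, rfl⟩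
  rw [← hV] at hmax
  have hV0 : 0 ≤ V := by rw [hV]; exact le_max_of_le_left (norm_nonneg _)
  have hVb : ∀ t ≤ T, ∀ i, ‖eL t i‖ ≤ V ∧ ‖eR t i‖ ≤ V := by
    intro t ht i
    have := hmax (t, i) ((hmem _).2 ht)
    exact ⟨(le_max_left _ _).trans this, (le_max_right _ _).trans this⟩
  -- the boxes
  have hbox : ∀ t, ∃ e : ℝ, t < T → 0 ≤ e ∧ e ≤ K * V ∧
      (∀ i, ∀ D, ‖eL t i‖ ≤ D ∧ ‖eR t i‖ ≤ D → ‖eL (t + 1) i‖ ≤ D + 2 * (K * e + F) ∧ ‖eR (t + 1) i‖ ≤ D + 2 * (K * e + F)) ∧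
      (∀ i, ∀ D, ‖eL (t + 1) i‖ ≤ D ∧ ‖eR (t + 1) i‖ ≤ D → ‖eL t i‖ ≤ D + 2 * (K * e + F) ∧ ‖eR t i‖ ≤ D + 2 * (K * e + F)) ∧
      (∀ k ∈ (bx t).2, ∀ hk : k + 1 < (bx t).1.length, ∀ D, 0 ≤ D →
        ((‖eL t (bx t).1[k]‖ ≤ D ∧ ‖eR t (bx t).1[k]‖ ≤ D) → (‖eL t (bx t).1[k + 1]‖ ≤ (2 + 2 * Real.exp Phi) * (D + (K * e + F)) ∧
          ‖eR t (bx t).1[k + 1]‖ ≤ (2 + 2 * Real.exp Phi) * (D + (K * e + F)))) ∧
        ((‖eL t (bx t).1[k + 1]‖ ≤ D ∧ ‖eR t (bx t).1[k + 1]‖ ≤ D) → (‖eL t (bx t).1[k]‖ ≤ (2 + 2 * Real.exp Phi) * (D + (K * e + F)) ∧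
          ‖eR t (bx t).1[k]‖ ≤ (2 + 2 * Real.exp Phi) * (D + (K * e + F))))) ∧
      de * x * e ^ 2 - K * x * |y| * e * V - N * (2 * (Real.exp Phi + 1) * (V + F) * F) ≤
        En' x y (eL t) (eR t) - En' x y (eL (t + 1)) (eR (t + 1)) := by
    intro t
    by_cases ht : t < T
    · obtain ⟨e, he⟩ := (h.box t ht).est hK H h.hN hx hxP y1 hC hC2 hF hV0 (hVb t ht.le) (hVb (t + 1) ht)
      exact ⟨e, fun _ => he⟩
    · exact ⟨0, fun h1 => absurd h1 ht⟩
  choose Z hZ using hbox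
  obtain ⟨S2, hS2⟩ : ∃ S2, S2 = ∑ r ∈ Finset.range T, Z r ^ 2 := ⟨_, rfl⟩
  have hS20 : 0 ≤ S2 := by
    rw [hS2]
    exact Finset.sum_nonneg fun r _ => sq_nonneg _
  obtain ⟨Zm, hZm⟩ : ∃ Zm, Zm = Real.sqrt S2 := ⟨_, rfl⟩
  have hZm0 : 0 ≤ Zm := by rw [hZm]; exact Real.sqrt_nonneg _
  have hZm2 : Zm ^ 2 = S2 := by rw [hZm]; exact Real.sq_sqrt hS20
  have hZr : ∀ r < T, Z r ≤ Zm := by
    intro r hr
    rw [hZm]
    apply Real.le_sqrt_of_sq_le
    rw [hS2]
    exact Finset.single_le_sum (f := fun r => Z r ^ 2) (fun j _ => sq_nonneg _)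
      (Finset.mem_range.2 hr)
  -- spreading
  obtain ⟨E, hEd⟩ : ∃ E, E = K * Zm + F := ⟨_, rfl⟩
  have hE0 : 0 ≤ E := by rw [hEd]; positivity
  have hZE : ∀ r < T, K * Z r + F ≤ E := by
    intro r hr
    rw [hEd]
    have := mul_le_mul_of_nonneg_left (hZr r hr) hK.le
    linarith
  have hsp : ∀ a ∈ Nd, Gd eL eR a (Kp * E) := by
    have h0 := spread Nd (Lk T bx π) (Gd eL eR)
      (fun a D D' hDD ha => ⟨ha.1.trans hDD, ha.2.trans hDD⟩)
      (x0 := (0, i0)) ((hmem _).2 (Nat.zero_le _)) (K := Kl) (E := E) hKl1 hE0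
      ⟨hb1.trans (by rw [hEd]; have : 0 ≤ K * Zm := by positivity
                     linarith), hb2.trans (by rw [hEd]; have : 0 ≤ K * Zm := by positivity
                                              linarith)⟩
      (fun a b hab => by
        rw [hmem, hmem]
        cases hab with
        | dn ht => exact ⟨ht.le, ht⟩
        | cl => exact ⟨le_refl _, Nat.zero_le _⟩
        | cr ht hk hl => exact ⟨ht.le, ht.le⟩)
      (fun a b hab D hD => by
        cases hab with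
        | @dn t i ht =>
          obtain ⟨_, _, g1, g2, _, _⟩ := hZ t ht
          have g3 : D + 2 * (K * Z t + F) ≤ Kl * (D + E) := by
            have := hZE t ht
            nlinarith
          exact ⟨fun hh => ⟨(g1 i D hh).1.trans g3, (g1 i D hh).2.trans g3⟩,
            fun hh => ⟨(g2 i D hh).1.trans g3, (g2 i D hh).2.trans g3⟩⟩
        | @cl i =>
          have g3 : D ≤ Kl * (D + E) := by nlinarith
          have g4 := h.cl i
          unfold Gd
          simp only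
          rw [g4.1, g4.2]
          exact ⟨fun hh => ⟨hh.1.trans g3, hh.2.trans g3⟩, fun hh => ⟨hh.1.trans g3, hh.2.trans g3⟩⟩
        | @cr t k ht hk hl =>
          obtain ⟨_, _, _, _, g1, _⟩ := hZ t ht
          have g2 := g1 k hk hl D hD
          have g3 : (2 + 2 * Real.exp Phi) * (D + (K * Z t + F)) ≤ Kl * (D + E) := by
            rw [hKl]
            exact mul_le_mul_of_nonneg_left (by linarith [hZE t ht]) (by positivity)
          exact ⟨fun hh => ⟨(g2.1 hh).1.trans g3, (g2.1 hh).2.trans g3⟩,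
            fun hh => ⟨(g2.2 hh).1.trans g3, (g2.2 hh).2.trans g3⟩⟩)
      (fun S hS hcl a ha => by
        have hdn : ∀ t ≤ T, ∀ i, S (0, i) ↔ S (t, i) := by
          intro t
          induction t with
          | zero => exact fun _ _ => Iff.rfl
          | succ t ih =>
            intro ht i
            rw [ih (by omega) i]
            exact hcl _ _ (Lk.dn (by omega))
        have h1 := hconn (fun i => S (0, i)) hS (fun i => by
          rw [hdn T le_rfl i]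
          exact hcl _ _ Lk.cl) (fun t ht k hk hl => by
          rw [hdn t ht.le, hdn t ht.le]
          exact hcl _ _ (Lk.cr ht hk hl))
        have h2 := h1 a.2
        rw [hdn a.1 ((hmem a).1 ha)] at h2
        exact h2)
    intro a ha
    have h1 := h0 a ha
    have hcard : Nd.card ≤ (N + 1) * N := by
      rw [hNd, Finset.card_product, Finset.card_range, Finset.card_univ]
      exact Nat.mul_le_mul (by have := h.hT; omega) h.hN
    have h2 : (2 * Kl) ^ Nd.card * E ≤ Kp * E := by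
      rw [hKp]
      exact mul_le_mul_of_nonneg_right (pow_le_pow_right₀ (by linarith) hcard) hE0
    exact ⟨h1.1.trans h2, h1.2.trans h2⟩
  have hVle : V ≤ Kp * (K * Zm + F) := by
    rw [hV, ← hEd]
    exact max_le (hsp am ham).1 (hsp am ham).2
  -- the energy balance
  have hen : de * x * S2 ≤ N * (K ^ 2 * x * |y| * V ^ 2 + K' * (V + F) * F) := by
    have h1 : ∑ r ∈ Finset.range T, (de * x * Z r ^ 2 - (K ^ 2 * x * |y| * V ^ 2 +
        K' * (V + F) * F)) ≤ 0 := by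
      have h2 : ∀ r ∈ Finset.range T, (de * x * Z r ^ 2 - (K ^ 2 * x * |y| * V ^ 2 +
        K' * (V + F) * F)) ≤ En' x y (eL r) (eR r) - En' x y (eL (r + 1)) (eR (r + 1)) := by
        intro r hr
        have hr' := Finset.mem_range.1 hr
        obtain ⟨z1, z2, _, _, _, z6⟩ := hZ r hr'
        refine le_trans ?_ z6
        have h4 : (N : ℝ) * (2 * (Real.exp Phi + 1) * (V + F) * F) = K' * (V + F) * F := by
          rw [hK']
          ring
        have h5 : K * x * |y| * Z r * V ≤ K ^ 2 * x * |y| * V ^ 2 := by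
          have h6 : K * x * |y| * V * Z r ≤ K * x * |y| * V * (K * V) :=
            mul_le_mul_of_nonneg_left z2 (by positivity)
          calc K * x * |y| * Z r * V = K * x * |y| * V * Z r := by ring
            _ ≤ K * x * |y| * V * (K * V) := h6
            _ = K ^ 2 * x * |y| * V ^ 2 := by ring
        rw [h4]
        linarith
      refine (Finset.sum_le_sum h2).trans ?_
      rw [tele (fun r => En' x y (eL r) (eR r))]
      have h7 : En' x y (eL T) (eR T) = En' x y (eL 0) (eR 0) := by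
        unfold En'
        rw [← Equiv.sum_comp π (fun i => En x y (eL 0 i) (eR 0 i))]
        refine Finset.sum_congr rfl fun i _ => ?_
        rw [(h.cl i).1, (h.cl i).2]
      rw [h7, sub_self]
    rw [Finset.sum_sub_distrib, ← Finset.mul_sum, ← hS2, Finset.sum_const, Finset.card_range,
      nsmul_eq_mul] at h1
    have h2 : (T : ℝ) * (K ^ 2 * x * |y| * V ^ 2 + K' * (V + F) * F) ≤
        N * (K ^ 2 * x * |y| * V ^ 2 + K' * (V + F) * F) := by
      apply mul_le_mul_of_nonneg_right _ (by positivity)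
      exact_mod_cast h.hT
    linarith
  -- conclusion
  have hV2 : V ^ 2 ≤ 2 * Kp ^ 2 * K ^ 2 * S2 + 2 * Kp ^ 2 * F ^ 2 := by
    have h1 := pow_le_pow_left₀ hV0 hVle 2
    rw [← hZm2]
    have h2 : (Kp * (K * Zm + F)) ^ 2 ≤ 2 * Kp ^ 2 * K ^ 2 * Zm ^ 2 + 2 * Kp ^ 2 * F ^ 2 := by
      have h3 : 0 ≤ Kp ^ 2 * (K * Zm - F) ^ 2 := by positivity
      nlinarith
    linarith
  have hfin : x * V ^ 2 ≤ A * (V * F + F ^ 2) + G * x * F ^ 2 := by
    have h1 : de * x * V ^ 2 ≤ 2 * Kp ^ 2 * K ^ 2 * (N * (K ^ 2 * x * |y| * V ^ 2 + K' * (V + F) * F)) +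
        2 * Kp ^ 2 * (de * x * F ^ 2) := by
      have h2 := mul_le_mul_of_nonneg_left hV2 (by positivity : 0 ≤ de * x)
      have h3 := mul_le_mul_of_nonneg_left hen (by positivity : 0 ≤ 2 * Kp ^ 2 * K ^ 2)
      linarith
    have h4 : 2 * Kp ^ 2 * K ^ 2 * (N * (K ^ 2 * x * |y| * V ^ 2)) ≤ de / 2 * (x * V ^ 2) := by
      have h5 : 2 * Kp ^ 2 * K ^ 4 * N * |y| ≤ de / 2 := by
        have h6 : 4 * Kp ^ 2 * N * K ^ 4 ≤ de * M := by
          have e1 : de * M = 4 * Kp ^ 2 * (N + 1) * K ^ 4 + de := by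
            rw [hM]
            field_simp
          rw [e1]
          have : 0 ≤ 4 * Kp ^ 2 * K ^ 4 := by positivity
          linarith
        have h7 : 4 * Kp ^ 2 * N * K ^ 4 * |y| ≤ de * M * (1 / M) :=
          mul_le_mul h6 y3 hy0 (by positivity)
        have h8 : de * M * (1 / M) = de := by field_simp
        linarith
      have h9 := mul_le_mul_of_nonneg_right h5 (by positivity : 0 ≤ x * V ^ 2)
      linarith
    have h10 : de / 2 * (x * V ^ 2) ≤ 2 * Kp ^ 2 * K ^ 2 * N * K' * ((V + F) * F) +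
        2 * Kp ^ 2 * (de * x * F ^ 2) := by linarith
    have h11 : de * (x * V ^ 2) ≤ de * (A * (V * F + F ^ 2) + G * x * F ^ 2) := by
      have e1 : de * A = 4 * Kp ^ 2 * K ^ 2 * N * K' := by
        rw [hA]
        field_simp
      have e2 : de * (A * (V * F + F ^ 2) + G * x * F ^ 2) =
          (de * A) * ((V + F) * F) + 4 * Kp ^ 2 * (de * x * F ^ 2) := by
        rw [hG]
        ring
      rw [e2, e1]
      linarith
    exact le_of_mul_le_mul_left h11 hde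
  have hq := quad hx hxP hV0 hF hA0 hG0 hfin
  intro t ht i
  have := hVb t ht i
  exact ⟨this.1.trans hq, this.2.trans hq⟩

end Pool.Agent.Helper30.EV3
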